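import Mathlib

/-!
# Continued fraction data for the Ostrowski numeration (MP_425be5_nt)
-/

set_option autoImplicit false

namespace Pool.Agent.NH93.Rec

/-- complete quotients of `ξ` -/
noncomputable def cq (ξ : ℝ) : ℕ → ℝ
  | 0 => ξ
  | n + 1 => 1 / (cq ξ n - ⌊cq ξ n⌋₊)

/-- partial quotients of `ξ` -/
noncomputable def aq (ξ : ℝ) (n : ℕ) : ℕ := ⌊cq ξ n⌋₊

/-- denominators of the convergents of `ξ` -/
noncomputable def qq (ξ : ℝ) : ℕ → ℕ
  | 0 => 1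
  | 1 => aq ξ 1
  | n + 2 => aq ξ (n + 2) * qq ξ (n + 1) + qq ξ n

/-- numerators of the convergents of `ξ` -/
noncomputable def pp (ξ : ℝ) : ℕ → ℕ
  | 0 => aq ξ 0
  | 1 => aq ξ 1 * aq ξ 0 + 1
  | n + 2 => aq ξ (n + 2) * pp ξ (n + 1) + pp ξ n

/-- `q_n ξ - p_n` -/
noncomputable def th (ξ : ℝ) (n : ℕ) : ℝ := qq ξ n * ξ - pp ξ n

variable {ξ : ℝ}

theorem cq_zero : cq ξ 0 = ξ := rfl
theorem cq_succ (n : ℕ) : cq ξ (n + 1) = 1 / (cq ξ n - aq ξ n) := rfl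
theorem qq_zero : qq ξ 0 = 1 := rfl
theorem qq_one : qq ξ 1 = aq ξ 1 := rfl
theorem qq_add_two (n : ℕ) : qq ξ (n + 2) = aq ξ (n + 2) * qq ξ (n + 1) + qq ξ n := rfl
theorem pp_zero : pp ξ 0 = aq ξ 0 := rfl
theorem pp_one : pp ξ 1 = aq ξ 1 * aq ξ 0 + 1 := rfl
theorem pp_add_two (n : ℕ) : pp ξ (n + 2) = aq ξ (n + 2) * pp ξ (n + 1) + pp ξ n := rfl

theorem cq_irr (hi : Irrational ξ) (n : ℕ) : Irrational (cq ξ n) := by
  induction n with
  | zero => exact hi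
  | succ n ih =>
    rw [cq_succ, one_div, irrational_inv_iff]
    exact ih.sub_natCast _

theorem frac_pos_of (n : ℕ) (hi : Irrational ξ) (h : 0 < cq ξ n) :
    0 < cq ξ n - aq ξ n ∧ cq ξ n - aq ξ n < 1 := by
  constructor
  · have h1 := Nat.floor_le h.le
    have h2 : cq ξ n ≠ (aq ξ n : ℝ) := (cq_irr hi n).ne_nat _
    have h3 : (aq ξ n : ℝ) ≤ cq ξ n := h1
    rcases h3.lt_or_eq with h4 | h4
    · linarith
    · exact absurd h4.symm h2
  · have := Nat.lt_floor_add_one (cq ξ n)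
    unfold aq
    linarith

theorem cq_pos (h0 : 0 < ξ) (hi : Irrational ξ) (n : ℕ) : 0 < cq ξ n := by
  induction n with
  | zero => exact h0
  | succ n ih =>
    rw [cq_succ]
    exact div_pos one_pos (frac_pos_of n hi ih).1

theorem frac_pos (h0 : 0 < ξ) (hi : Irrational ξ) (n : ℕ) : 0 < cq ξ n - aq ξ n :=
  (frac_pos_of n hi (cq_pos h0 hi n)).1

theorem frac_lt (h0 : 0 < ξ) (hi : Irrational ξ) (n : ℕ) : cq ξ n - aq ξ n < 1 :=
  (frac_pos_of n hi (cq_pos h0 hi n)).2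

theorem one_lt_cq (h0 : 0 < ξ) (hi : Irrational ξ) (n : ℕ) : 1 < cq ξ (n + 1) := by
  rw [cq_succ, lt_div_iff₀ (frac_pos h0 hi n), one_mul]
  exact frac_lt h0 hi n

theorem aq_pos (h0 : 0 < ξ) (hi : Irrational ξ) (n : ℕ) : 1 ≤ aq ξ (n + 1) := by
  unfold aq
  rw [Nat.one_le_floor_iff]
  exact (one_lt_cq h0 hi n).le

/-- the expansion step -/
theorem cq_step (n : ℕ) :
    cq ξ n = aq ξ n + 1 / cq ξ (n + 1) := by
  rw [cq_succ, one_div_one_div]
  ring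

theorem th_zero : th ξ 0 = ξ - aq ξ 0 := by
  unfold th
  rw [qq_zero, pp_zero]; simp

theorem th_add_two (n : ℕ) : th ξ (n + 2) = aq ξ (n + 2) * th ξ (n + 1) + th ξ n := by
  unfold th
  rw [qq_add_two, pp_add_two]; push_cast; ring

theorem th_succ (h0 : 0 < ξ) (hi : Irrational ξ) (n : ℕ) :
    th ξ n = -(cq ξ (n + 2) * th ξ (n + 1)) := by
  induction n with
  | zero =>
    have h1 := cq_step (ξ := ξ) 0
    have h2 := cq_step (ξ := ξ) 1
    have c1 := cq_pos h0 hi 1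
    have c2 := cq_pos h0 hi 2
    rw [cq_zero] at h1
    norm_num at h1 h2
    rw [th_zero]
    unfold th
    rw [qq_one, pp_one]
    push_cast
    set x1 := cq ξ 1
    set x2 := cq ξ 2
    have e1 : ξ - aq ξ 0 = x1⁻¹ := by linarith
    have e3 : (aq ξ 1 : ℝ) * ξ - (aq ξ 1 * aq ξ 0 + 1) = aq ξ 1 * (ξ - aq ξ 0) - 1 := by ring
    rw [e3, e1]
    have e2 : (aq ξ 1 : ℝ) = x1 - x2⁻¹ := by linarith
    rw [e2]
    field_simp
    ring
  | succ n ih =>
    have h2 := cq_step (ξ := ξ) (n + 2)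
    have c3 := cq_pos h0 hi (n + 3)
    rw [th_add_two, ih]
    rw [h2]
    field_simp
    ring

theorem th_ne (h0 : 0 < ξ) (hi : Irrational ξ) (n : ℕ) : th ξ n ≠ 0 := by
  induction n with
  | zero =>
    rw [th_zero]
    exact (frac_pos h0 hi 0).ne'
  | succ n ih =>
    intro h
    apply ih
    rw [th_succ h0 hi n, h, mul_zero, neg_zero]

/-- the ratio of consecutive `θ`'s -/
noncomputable def rr (ξ : ℝ) (n : ℕ) : ℝ := -(1 / cq ξ (n + 2))

theorem th_eq_rr (h0 : 0 < ξ) (hi : Irrational ξ) (n : ℕ) : th ξ (n + 1) = rr ξ n * th ξ n := by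
  unfold rr
  have c := cq_pos h0 hi (n + 2)
  rw [th_succ h0 hi n]
  field_simp

theorem abs_th_succ_lt (h0 : 0 < ξ) (hi : Irrational ξ) (n : ℕ) : |th ξ (n + 1)| < |th ξ n| := by
  have h := th_ne h0 hi n
  rw [th_eq_rr h0 hi n, abs_mul]
  have h1 : |rr ξ n| < 1 := by
    unfold rr
    rw [abs_neg, abs_of_pos (div_pos one_pos (cq_pos h0 hi (n + 2))),
      div_lt_one (cq_pos h0 hi (n + 2))]
    exact one_lt_cq h0 hi (n + 1)
  calc |rr ξ n| * |th ξ n| < 1 * |th ξ n| := mul_lt_mul_of_pos_right h1 (abs_pos.2 h)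
    _ = |th ξ n| := one_mul _

theorem qq_pos (h0 : 0 < ξ) (hi : Irrational ξ) (n : ℕ) : 1 ≤ qq ξ n := by
  induction n using Nat.strong_induction_on with
  | _ n ih =>
    match n with
    | 0 => rw [qq_zero]
    | 1 => rw [qq_one]; exact aq_pos h0 hi 0
    | n + 2 =>
      rw [qq_add_two]
      have := ih n (by omega)
      omega

theorem qq_mono_succ (h0 : 0 < ξ) (hi : Irrational ξ) (n : ℕ) : qq ξ n ≤ qq ξ (n + 1) := by
  cases n with
  | zero => rw [qq_zero, zero_add, qq_one]; exact aq_pos h0 hi 0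
  | succ n =>
    rw [qq_add_two]
    have := aq_pos h0 hi (n + 1)
    nlinarith

/-- determinant -/
theorem det_eq (n : ℕ) : ((qq ξ (n + 1) : ℤ) * pp ξ n - qq ξ n * pp ξ (n + 1)) = (-1) ^ (n + 1) := by
  induction n with
  | zero =>
    rw [zero_add, qq_one, pp_one, qq_zero, pp_zero]; push_cast; ring
  | succ n ih =>
    rw [qq_add_two, pp_add_two, pow_succ, ← ih]
    push_cast
    ring

theorem det_sq (n : ℕ) :
    ((qq ξ (n + 1) : ℤ) * pp ξ n - qq ξ n * pp ξ (n + 1)) *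
      ((qq ξ (n + 1) : ℤ) * pp ξ n - qq ξ n * pp ξ (n + 1)) = 1 := by
  rw [det_eq, ← mul_pow]; norm_num

theorem th_cross (n : ℕ) : (qq ξ (n + 1) : ℝ) * th ξ n - qq ξ n * th ξ (n + 1) =
    -(((qq ξ (n + 1) : ℤ) * pp ξ n - qq ξ n * pp ξ (n + 1) : ℤ) : ℝ) := by
  unfold th; push_cast; ring

theorem qq_th_le (h0 : 0 < ξ) (hi : Irrational ξ) (n : ℕ) :
    (qq ξ (n + 1) : ℝ) * |th ξ n| ≤ 1 := by
  have h1 := th_cross (ξ := ξ) n
  have h2 : |(qq ξ (n + 1) : ℝ) * th ξ n - qq ξ n * th ξ (n + 1)| = 1 := by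
    rw [h1, abs_neg, det_eq]
    push_cast
    rw [abs_pow, abs_neg, abs_one, one_pow]
  have h3 : (qq ξ (n + 1) : ℝ) * th ξ n - qq ξ n * th ξ (n + 1) =
      (qq ξ (n + 1) + qq ξ n / cq ξ (n + 2)) * th ξ n := by
    rw [th_eq_rr h0 hi n]
    unfold rr
    ring
  have c := cq_pos h0 hi (n + 2)
  have hq : (0 : ℝ) ≤ qq ξ n / cq ξ (n + 2) := by positivity
  rw [h3, abs_mul, abs_of_nonneg (by positivity)] at h2
  nlinarith [abs_nonneg (th ξ n)]

theorem th_mul_le (h0 : 0 < ξ) (hi : Irrational ξ) (n : ℕ) :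
    (qq ξ n : ℝ) * |th ξ n| ≤ 1 := by
  refine le_trans ?_ (qq_th_le h0 hi n)
  have : (qq ξ n : ℝ) ≤ qq ξ (n + 1) := by exact_mod_cast qq_mono_succ h0 hi n
  exact mul_le_mul_of_nonneg_right this (abs_nonneg _)

end Pool.Agent.NH93.Rec
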