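import Mathlib
import Pool.Agent.NH93.Rec.CF

/-!
# The deterministic walk, Denjoy-Koksma bound (MP_425be5_nt)
-/

set_option autoImplicit false

namespace Pool.Agent.NH93.Rec

/-- one step of the walk from the point `y` -/
noncomputable def ff (e : ℤ) (y : ℝ) : ℤ := if Even ⌊2 * y⌋ then e else -e

/-- sum of `n` steps starting from `x` -/
noncomputable def FF (e : ℤ) (ξ x : ℝ) (n : ℕ) : ℤ :=
  ∑ j ∈ Finset.range n, ff e (x + (j + 1) * ξ)

variable {e : ℤ} {ξ : ℝ}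

theorem ff_abs (he : |e| = 1) (y : ℝ) : |ff e y| = 1 := by
  unfold ff; split_ifs
  · exact he
  · rw [abs_neg]; exact he

theorem ff_int (y : ℝ) (z : ℤ) : ff e (y + z) = ff e y := by
  unfold ff
  have : ⌊2 * (y + z)⌋ = ⌊2 * y⌋ + 2 * z := by
    rw [mul_add]
    have : (2 : ℝ) * z = ((2 * z : ℤ) : ℝ) := by push_cast; ring
    rw [this, Int.floor_add_intCast]
  rw [this]
  have h2 : Even (⌊2 * y⌋ + 2 * z) ↔ Even ⌊2 * y⌋ := by
    rw [Int.even_add]
    simp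
  simp only [h2]

theorem FF_zero (x : ℝ) : FF e ξ x 0 = 0 := by simp [FF]

theorem FF_succ (x : ℝ) (n : ℕ) : FF e ξ x (n + 1) = FF e ξ x n + ff e (x + (n + 1) * ξ) := by
  unfold FF; rw [Finset.sum_range_succ]

theorem FF_add (x : ℝ) (m n : ℕ) : FF e ξ x (m + n) = FF e ξ x m + FF e ξ (x + m * ξ) n := by
  unfold FF
  rw [Finset.sum_range_add]
  congr 1
  refine Finset.sum_congr rfl fun j _ => ?_
  congr 1
  push_cast; ring

theorem FF_int (x : ℝ) (z : ℤ) (n : ℕ) : FF e ξ (x + z) n = FF e ξ x n := by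
  unfold FF
  refine Finset.sum_congr rfl fun j _ => ?_
  rw [show x + z + (j + 1) * ξ = x + (j + 1) * ξ + z by ring, ff_int]

/-- shifting by `c q_k` steps amounts to moving by `c θ_k` -/
theorem FF_qq (x : ℝ) (c k n : ℕ) :
    FF e ξ (x + (c * qq ξ k : ℕ) * ξ) n = FF e ξ (x + c * th ξ k) n := by
  have : x + ((c * qq ξ k : ℕ) : ℝ) * ξ = x + c * th ξ k + ((c * pp ξ k : ℕ) : ℤ) := by
    unfold th; push_cast; ring
  rw [this, FF_int]

theorem FF_step_abs (he : |e| = 1) (x : ℝ) (n : ℕ) : |FF e ξ x (n + 1) - FF e ξ x n| = 1 := by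
  rw [FF_succ, add_sub_cancel_left]; exact ff_abs he _

/-! ### the floor sums -/

/-- the floor sum -/
noncomputable def HH (q : ℕ) (p : ℤ) (x : ℝ) (u : ℤ) : ℤ :=
  ∑ j ∈ Finset.range q, ⌊x + (((j : ℤ) + 1 + u : ℤ) : ℝ) * p / q⌋

theorem HH_shift (q : ℕ) (hq : 0 < q) (p : ℤ) (x : ℝ) (u : ℤ) :
    HH q p x (u + 1) = HH q p x u + p := by
  unfold HH
  have h1 : ∀ j : ℕ, (((j : ℤ) + 1 + (u + 1) : ℤ) : ℝ) = ((((j + 1 : ℕ) : ℤ) + 1 + u : ℤ) : ℝ) := by
    intro j; push_cast; ring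
  simp_rw [h1]
  have h2 := Finset.sum_range_succ (fun j : ℕ => ⌊x + (((j : ℤ) + 1 + u : ℤ) : ℝ) * p / q⌋) q
  have h3 := Finset.sum_range_succ' (fun j : ℕ => ⌊x + (((j : ℤ) + 1 + u : ℤ) : ℝ) * p / q⌋) q
  have h4 : ⌊x + (((q : ℤ) + 1 + u : ℤ) : ℝ) * p / q⌋ =
      ⌊x + ((((0 : ℕ) : ℤ) + 1 + u : ℤ) : ℝ) * p / q⌋ + p := by
    rw [← Int.floor_add_intCast]
    congr 1
    have : (q : ℝ) ≠ 0 := by positivity
    push_cast
    field_simp
    ring
  rw [h4] at h2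
  linarith

theorem HH_shift' (q : ℕ) (hq : 0 < q) (p : ℤ) (x : ℝ) (u : ℤ) :
    HH q p x u = HH q p x 0 + u * p := by
  induction u using Int.induction_on with
  | zero => simp
  | succ n ih => rw [HH_shift q hq, ih]; ring
  | pred n ih =>
    have := HH_shift q hq p x (-(n : ℤ) - 1)
    rw [sub_add_cancel, ih] at this
    linarith

theorem HH_one (q : ℕ) (hq : 0 < q) (p : ℤ) (hc : IsCoprime p (q : ℤ)) (x : ℝ) :
    HH q p (x + 1 / q) 0 = HH q p x 0 + 1 := by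
  obtain ⟨u, v, huv⟩ := hc
  have hq' : (q : ℝ) ≠ 0 := by positivity
  have h1 : HH q p (x + 1 / q) 0 = HH q p x u + q * v := by
    unfold HH
    have h2 : ∀ j ∈ Finset.range q, ⌊x + 1 / q + (((j : ℤ) + 1 + 0 : ℤ) : ℝ) * p / q⌋ =
        ⌊x + (((j : ℤ) + 1 + u : ℤ) : ℝ) * p / q⌋ + v := by
      intro j _
      rw [← Int.floor_add_intCast]
      congr 1
      have h3 : (u : ℝ) * p + v * q = 1 := by exact_mod_cast huv
      rw [← h3]
      push_cast
      field_simp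
      ring
    rw [Finset.sum_congr rfl h2, Finset.sum_add_distrib, Finset.sum_const, Finset.card_range,
      nsmul_eq_mul]
  rw [h1, HH_shift' q hq p x u]
  linarith

theorem HH_nat (q : ℕ) (hq : 0 < q) (p : ℤ) (hc : IsCoprime p (q : ℤ)) (x : ℝ) (m : ℤ) :
    HH q p (x + m / q) 0 = HH q p x 0 + m := by
  induction m using Int.induction_on with
  | zero => simp
  | succ n ih =>
    have h := HH_one q hq p hc (x + ((n : ℤ) : ℝ) / q)
    rw [ih] at h
    rw [← add_assoc, ← h]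
    congr 1
    push_cast
    ring
  | pred n ih =>
    have h := HH_one q hq p hc (x + ((-(n : ℤ) - 1 : ℤ) : ℝ) / q)
    have h2 : x + ((-(n : ℤ) - 1 : ℤ) : ℝ) / q + 1 / q = x + ((-(n : ℤ) : ℤ) : ℝ) / q := by
      push_cast
      ring
    rw [h2, ih] at h
    linarith

theorem HH_mono (q : ℕ) (p : ℤ) {x y : ℝ} (h : x ≤ y) : HH q p x 0 ≤ HH q p y 0 := by
  unfold HH
  refine Finset.sum_le_sum fun j _ => Int.floor_le_floor ?_
  linarith

/-- comparison of the floor sum of the irrational rotation with the rational one -/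
theorem floor_sum_bounds (q : ℕ) (hq : 0 < q) (p : ℤ) (ξ x : ℝ) (h : |q * ξ - p| ≤ 1 / q) :
    HH q p (x - 1 / q) 0 ≤ ∑ j ∈ Finset.range q, ⌊x + (j + 1) * ξ⌋ ∧
      ∑ j ∈ Finset.range q, ⌊x + (j + 1) * ξ⌋ ≤ HH q p (x + 1 / q) 0 := by
  have hq' : (0 : ℝ) < q := by exact_mod_cast hq
  have key : ∀ j ∈ Finset.range q, |((j : ℝ) + 1) * ξ - (j + 1) * p / q| ≤ 1 / q := by
    intro j hj
    have h1 : ((j : ℝ) + 1) * ξ - (j + 1) * p / q = ((j + 1) / q) * (q * ξ - p) := by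
      field_simp
    rw [h1, abs_mul, abs_of_nonneg (by positivity)]
    have h2 : ((j : ℝ) + 1) / q ≤ 1 := by
      rw [div_le_one hq']
      have := Finset.mem_range.1 hj
      exact_mod_cast this
    calc ((j : ℝ) + 1) / q * |q * ξ - p| ≤ 1 * |q * ξ - p| :=
          mul_le_mul_of_nonneg_right h2 (abs_nonneg _)
      _ ≤ 1 / q := by rw [one_mul]; exact h
  unfold HH
  constructor
  · refine Finset.sum_le_sum fun j hj => Int.floor_le_floor ?_
    have := (abs_le.1 (key j hj)).1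
    push_cast
    rw [add_zero]
    linarith
  · refine Finset.sum_le_sum fun j hj => Int.floor_le_floor ?_
    have := (abs_le.1 (key j hj)).2
    push_cast
    rw [add_zero]
    linarith

theorem ff_floor (y : ℝ) : ff e y = e * (1 - 2 * (⌊y + 1 / 2⌋ - ⌊y⌋)) := by
  unfold ff
  have h1 := Int.floor_le y
  have h2 := Int.lt_floor_add_one y
  set n := ⌊y⌋ with hn
  by_cases hy : y < n + 1 / 2
  · have h3 : ⌊2 * y⌋ = 2 * n := by
      rw [Int.floor_eq_iff]; push_cast; constructor <;> linarith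
    have h4 : ⌊y + 1 / 2⌋ = n := by
      rw [Int.floor_eq_iff]; constructor <;> linarith
    rw [h3, h4, if_pos (even_two_mul n)]; ring
  · rw [not_lt] at hy
    have h3 : ⌊2 * y⌋ = 2 * n + 1 := by
      rw [Int.floor_eq_iff]; push_cast; constructor <;> linarith
    have h4 : ⌊y + 1 / 2⌋ = n + 1 := by
      rw [Int.floor_eq_iff]; push_cast; constructor <;> linarith
    rw [h3, h4, if_neg (by simp)]; ring

/-- Denjoy-Koksma type bound -/
theorem DK (he : |e| = 1) (q : ℕ) (hq : 0 < q) (p : ℤ) (hc : IsCoprime p (q : ℤ)) (ξ x : ℝ)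
    (h : |q * ξ - p| ≤ 1 / q) : |FF e ξ x q| ≤ 6 := by
  have hq' : (0 : ℝ) < q := by exact_mod_cast hq
  set A := ∑ j ∈ Finset.range q, ⌊x + (j + 1) * ξ⌋ with hA
  set B := ∑ j ∈ Finset.range q, ⌊(x + 1 / 2) + (j + 1) * ξ⌋ with hB
  have h1 : FF e ξ x q = e * (q - 2 * (B - A)) := by
    unfold FF
    rw [hA, hB, ← Finset.sum_sub_distrib]
    have h2 : ∀ j : ℕ, ff e (x + (j + 1) * ξ) =
        e * (1 - 2 * (⌊(x + 1 / 2) + (j + 1) * ξ⌋ - ⌊x + (j + 1) * ξ⌋)) := by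
      intro j
      rw [ff_floor, show x + (j + 1) * ξ + 1 / 2 = (x + 1 / 2) + (j + 1) * ξ by ring]
    simp_rw [h2]
    rw [← Finset.mul_sum, Finset.sum_sub_distrib, ← Finset.mul_sum]
    simp only [Finset.sum_const, Finset.card_range, nsmul_eq_mul, mul_one]
  obtain ⟨a1, a2⟩ := floor_sum_bounds q hq p ξ x h
  obtain ⟨b1, b2⟩ := floor_sum_bounds q hq p ξ (x + 1 / 2) h
  have hd : (2 : ℤ) * ((q : ℤ) / 2) ≤ q ∧ (q : ℤ) ≤ 2 * ((q : ℤ) / 2) + 1 := by omega
  set m : ℤ := (q : ℤ) / 2 with hm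
  have hd' : (2 : ℝ) * m ≤ q ∧ (q : ℝ) ≤ 2 * m + 1 := by
    constructor
    · exact_mod_cast hd.1
    · exact_mod_cast hd.2
  -- upper bound for B - A
  have u1 : HH q p (x + 1 / 2 + 1 / q) 0 ≤ HH q p (x - 1 / q) 0 + (m + 3) := by
    rw [← HH_nat q hq p hc (x - 1 / q) (m + 3)]
    apply HH_mono
    have : (1 : ℝ) / 2 + 2 / q ≤ (m + 3) / q := by
      rw [div_add_div _ _ (by norm_num) hq'.ne', div_le_div_iff₀ (by positivity) hq']
      nlinarith [hd'.2]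
    push_cast
    have e1 : (2 : ℝ) / q = 1 / q + 1 / q := by ring
    linarith
  have l1 : HH q p (x + 1 / q) 0 + (m - 2) ≤ HH q p (x + 1 / 2 - 1 / q) 0 := by
    rw [← HH_nat q hq p hc (x + 1 / q) (m - 2)]
    apply HH_mono
    have : (m - 2) / q + (2 : ℝ) / q ≤ 1 / 2 := by
      rw [← add_div, div_le_div_iff₀ hq' (by norm_num)]
      nlinarith [hd'.1]
    push_cast
    have e1 : (2 : ℝ) / q = 1 / q + 1 / q := by ring
    linarith
  rw [h1, abs_mul, he, one_mul, abs_le]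
  constructor <;> omega

theorem coprime_pq (n : ℕ) : IsCoprime (pp ξ n : ℤ) (qq ξ n : ℤ) := by
  have h := det_sq (ξ := ξ) n
  set D : ℤ := ((qq ξ (n + 1) : ℤ) * pp ξ n - qq ξ n * pp ξ (n + 1)) with hD
  exact ⟨D * qq ξ (n + 1), -(D * pp ξ (n + 1)), by
    calc D * qq ξ (n + 1) * pp ξ n + -(D * pp ξ (n + 1)) * qq ξ n =
      D * ((qq ξ (n + 1) : ℤ) * pp ξ n - qq ξ n * pp ξ (n + 1)) := by ring
      _ = 1 := by rw [← hD]; exact h⟩

theorem FF_DK (he : |e| = 1) (h0 : 0 < ξ) (hi : Irrational ξ) (x : ℝ) (n : ℕ) :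
    |FF e ξ x (qq ξ n)| ≤ 6 := by
  have hq := qq_pos h0 hi n
  refine DK he (qq ξ n) hq (pp ξ n) (coprime_pq n) ξ x ?_
  have h1 := th_mul_le h0 hi n
  have hq' : (0 : ℝ) < qq ξ n := by exact_mod_cast hq
  rw [le_div_iff₀ hq']
  unfold th at h1
  push_cast
  linarith

end Pool.Agent.NH93.Rec
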