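import Mathlib
import Pool.Agent.NH93.Rec.Walk

/-!
# Cells: the walk on a block depends on finitely many sign conditions (MP_425be5_nt)
-/

set_option autoImplicit false

namespace Pool.Agent.NH93.Rec

variable {e : ℤ} {ξ : ℝ}

/-- the small vectors -/
noncomputable def box : Finset (ℤ × ℤ) := Finset.Icc (-6) 6 ×ˢ Finset.Icc (-6) 6

theorem lattice_aux (h0 : 0 < ξ) (hi : Irrational ξ) (k : ℕ) (x x' : ℝ) (hx : |x| ≤ |th ξ k|)
    (hx' : |x'| ≤ |th ξ k|) (j : ℕ) (hj : j + 1 ≤ qq ξ (k + 1) + qq ξ k)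
    (hlt : ⌊2 * (x + (j + 1) * ξ)⌋ < ⌊2 * (x' + (j + 1) * ξ)⌋) :
    ∃ v ∈ box, (2 * ((j : ℤ) + 1) = v.1 * qq ξ (k + 1) + v.2 * qq ξ k) ∧
      2 * x + v.1 * th ξ (k + 1) + v.2 * th ξ k < 0 ∧
      0 ≤ 2 * x' + v.1 * th ξ (k + 1) + v.2 * th ξ k := by
  set m := ⌊2 * (x' + (j + 1) * ξ)⌋ with hm
  have hA : 2 * (x + (j + 1) * ξ) < m := Int.floor_lt.1 hlt
  have hA' : (m : ℝ) ≤ 2 * (x' + (j + 1) * ξ) := Int.floor_le _
  set J : ℤ := 2 * ((j : ℤ) + 1) with hJ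
  set D : ℤ := (qq ξ (k + 1) : ℤ) * pp ξ k - qq ξ k * pp ξ (k + 1) with hD
  have hDD : D * D = 1 := det_sq k
  set α : ℤ := D * (J * pp ξ k - m * qq ξ k) with hα
  set β : ℤ := D * (m * qq ξ (k + 1) - J * pp ξ (k + 1)) with hβ
  have e1 : J = α * qq ξ (k + 1) + β * qq ξ k := by
    calc J = (D * D) * J := by rw [hDD, one_mul]
      _ = _ := by rw [hα, hβ]; nth_rewrite 2 [hD]; ring
  have e2 : m = α * pp ξ (k + 1) + β * pp ξ k := by
    calc m = (D * D) * m := by rw [hDD, one_mul]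
      _ = _ := by rw [hα, hβ]; nth_rewrite 2 [hD]; ring
  have e1' : (J : ℝ) = α * qq ξ (k + 1) + β * qq ξ k := by exact_mod_cast e1
  have e2' : (m : ℝ) = α * pp ξ (k + 1) + β * pp ξ k := by exact_mod_cast e2
  set η : ℝ := α * th ξ (k + 1) + β * th ξ k with hη
  have hη' : η = J * ξ - m := by rw [e1', e2', hη]; unfold th; ring
  have hJr : (J : ℝ) = 2 * (j + 1) := by rw [hJ]; push_cast; ring
  have c1 : 2 * x + η < 0 := by rw [hη', hJr]; linarith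
  have c2 : 0 ≤ 2 * x' + η := by rw [hη', hJr]; linarith
  have hηb : |η| ≤ 2 * |th ξ k| := by
    rw [abs_le] at hx hx' ⊢
    constructor <;> linarith [hx.1, hx.2, hx'.1, hx'.2]
  have hq1 := qq_th_le h0 hi k
  have hqm : (qq ξ k : ℝ) ≤ qq ξ (k + 1) := by exact_mod_cast qq_mono_succ h0 hi k
  have hth := (abs_th_succ_lt h0 hi k).le
  have hjr : (j : ℝ) + 1 ≤ qq ξ (k + 1) + qq ξ k := by exact_mod_cast hj
  have hDabs : |(D : ℝ)| = 1 := by
    have : |D| = 1 := by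
      rcases Int.isUnit_iff.1 (IsUnit.of_mul_eq_one _ hDD) with h | h <;> rw [h] <;> norm_num
    exact_mod_cast this
  have t0 := abs_nonneg (th ξ k)
  have q0 : (0 : ℝ) ≤ qq ξ k := by positivity
  have q1 : (0 : ℝ) ≤ qq ξ (k + 1) := by positivity
  have hα6 : |(α : ℝ)| ≤ 6 := by
    have h1 : (α : ℝ) = D * (-(J * th ξ k) + qq ξ k * η) := by
      rw [hα, hη']; unfold th; push_cast; ring
    rw [h1, abs_mul, hDabs, one_mul]
    calc |-(J * th ξ k) + qq ξ k * η| ≤ |-(J * th ξ k)| + |qq ξ k * η| := abs_add_le _ _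
      _ = (2 * (j + 1)) * |th ξ k| + qq ξ k * |η| := by
          rw [abs_neg, abs_mul, abs_mul, hJr, abs_of_nonneg (by positivity), abs_of_nonneg q0]
      _ ≤ (2 * (qq ξ (k + 1) + qq ξ k)) * |th ξ k| + qq ξ k * (2 * |th ξ k|) := by
          gcongr
      _ ≤ 6 * (qq ξ (k + 1) * |th ξ k|) := by nlinarith
      _ ≤ 6 := by linarith
  have hβ6 : |(β : ℝ)| ≤ 6 := by
    have h1 : (β : ℝ) = D * (-(qq ξ (k + 1) * η) + J * th ξ (k + 1)) := by
      rw [hβ, hη']; unfold th; push_cast; ring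
    rw [h1, abs_mul, hDabs, one_mul]
    calc |-(qq ξ (k + 1) * η) + J * th ξ (k + 1)| ≤
          |-(qq ξ (k + 1) * η)| + |J * th ξ (k + 1)| := abs_add_le _ _
      _ = qq ξ (k + 1) * |η| + (2 * (j + 1)) * |th ξ (k + 1)| := by
          rw [abs_neg, abs_mul, abs_mul, hJr, abs_of_nonneg q1,
            abs_of_nonneg (by positivity : (0 : ℝ) ≤ 2 * (j + 1))]
      _ ≤ qq ξ (k + 1) * (2 * |th ξ k|) + (2 * (qq ξ (k + 1) + qq ξ k)) * |th ξ k| := by
          gcongr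
      _ ≤ 6 * (qq ξ (k + 1) * |th ξ k|) := by nlinarith
      _ ≤ 6 := by linarith
  refine ⟨(α, β), ?_, e1, ?_, ?_⟩
  · unfold box
    rw [Finset.mem_product, Finset.mem_Icc, Finset.mem_Icc]
    have hα6' : |α| ≤ 6 := by exact_mod_cast hα6
    have hβ6' : |β| ≤ 6 := by exact_mod_cast hβ6
    exact ⟨abs_le.1 hα6', abs_le.1 hβ6'⟩
  · simp only; rw [add_assoc, ← hη]; exact c1
  · simp only; rw [add_assoc, ← hη]; exact c2

theorem lattice (h0 : 0 < ξ) (hi : Irrational ξ) (k : ℕ) (x x' : ℝ) (hx : |x| ≤ |th ξ k|)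
    (hx' : |x'| ≤ |th ξ k|) (j : ℕ) (hj : j + 1 ≤ qq ξ (k + 1) + qq ξ k)
    (hne : ff e (x + (j + 1) * ξ) ≠ ff e (x' + (j + 1) * ξ)) :
    ∃ v ∈ box, (2 * ((j : ℤ) + 1) = v.1 * qq ξ (k + 1) + v.2 * qq ξ k) ∧
      ¬ (0 ≤ 2 * x + v.1 * th ξ (k + 1) + v.2 * th ξ k ↔
      0 ≤ 2 * x' + v.1 * th ξ (k + 1) + v.2 * th ξ k) := by
  have hfl : ⌊2 * (x + (j + 1) * ξ)⌋ ≠ ⌊2 * (x' + (j + 1) * ξ)⌋ := by
    intro h; apply hne; unfold ff; rw [h]
  rcases lt_or_gt_of_ne hfl with h | h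
  · obtain ⟨v, hv, h1, h2, h3⟩ := lattice_aux h0 hi k x x' hx hx' j hj h
    exact ⟨v, hv, h1, fun hh => absurd (hh.2 h3) (not_le.2 h2)⟩
  · obtain ⟨v, hv, h1, h2, h3⟩ := lattice_aux h0 hi k x' x hx' hx j hj h
    exact ⟨v, hv, h1, fun hh => absurd (hh.1 h3) (not_le.2 h2)⟩

/-- the variation of block sums -/
theorem FF_var (he : |e| = 1) (h0 : 0 < ξ) (hi : Irrational ξ) (k : ℕ) (x x' : ℝ)
    (hx : |x| ≤ |th ξ k|) (hx' : |x'| ≤ |th ξ k|) (n : ℕ) (hn : n ≤ qq ξ (k + 1) + qq ξ k) :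
    |FF e ξ x n - FF e ξ x' n| ≤ 338 := by
  classical
  set bad := (Finset.range n).filter (fun j : ℕ =>
    ff e (x + ((j : ℝ) + 1) * ξ) ≠ ff e (x' + ((j : ℝ) + 1) * ξ)) with hbad
  have hcard : bad.card ≤ 169 := by
    have h1 : bad ⊆ box.image (fun v : ℤ × ℤ =>
        ((v.1 * qq ξ (k + 1) + v.2 * qq ξ k) / 2 - 1).toNat) := by
      intro j hj
      rw [hbad, Finset.mem_filter, Finset.mem_range] at hj
      obtain ⟨v, hv, h1, -⟩ := lattice h0 hi k x x' hx hx' j (by omega) hj.2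
      rw [Finset.mem_image]
      refine ⟨v, hv, ?_⟩
      rw [← h1]
      omega
    refine (Finset.card_le_card h1).trans (Finset.card_image_le.trans ?_)
    unfold box
    rw [Finset.card_product]
    simp
  have h2 : FF e ξ x n - FF e ξ x' n = ∑ j ∈ bad,
      (ff e (x + ((j : ℝ) + 1) * ξ) - ff e (x' + ((j : ℝ) + 1) * ξ)) := by
    unfold FF
    rw [← Finset.sum_sub_distrib, hbad, Finset.sum_filter]
    refine Finset.sum_congr rfl fun j _ => ?_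
    split_ifs with h
    · rfl
    · rw [ne_eq, not_not] at h
      rw [h, sub_self]
  rw [h2]
  calc |∑ j ∈ bad, (ff e (x + ((j : ℝ) + 1) * ξ) - ff e (x' + ((j : ℝ) + 1) * ξ))| ≤
      ∑ j ∈ bad, |ff e (x + ((j : ℝ) + 1) * ξ) - ff e (x' + ((j : ℝ) + 1) * ξ)| :=
        Finset.abs_sum_le_sum_abs _ _
    _ ≤ ∑ _j ∈ bad, (2 : ℤ) := by
        refine Finset.sum_le_sum fun j _ => ?_
        have a1 := ff_abs he (x + ((j : ℝ) + 1) * ξ)
        have a2 := ff_abs he (x' + ((j : ℝ) + 1) * ξ)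
        have := abs_sub (ff e (x + ((j : ℝ) + 1) * ξ)) (ff e (x' + ((j : ℝ) + 1) * ξ))
        omega
    _ = bad.card * 2 := by rw [Finset.sum_const, nsmul_eq_mul]
    _ ≤ 338 := by
        have : (bad.card : ℤ) ≤ 169 := by exact_mod_cast hcard
        linarith

/-- the cell of a normalised coordinate -/
def cell (r y : ℝ) : Set (ℤ × ℤ) × Set (ℤ × ℤ) :=
  ({v | v ∈ box ∧ 0 ≤ 2 * y + v.1 * r + v.2}, {v | v ∈ box ∧ 2 * y + v.1 * r + v.2 ≤ 0})

theorem ff_cell (h0 : 0 < ξ) (hi : Irrational ξ) (k : ℕ) (y y' : ℝ) (hy : |y| ≤ 1)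
    (hy' : |y'| ≤ 1) (hc : cell (rr ξ k) y = cell (rr ξ k) y') (j : ℕ)
    (hj : j + 1 ≤ qq ξ (k + 1) + qq ξ k) :
    ff e (th ξ k * y + (j + 1) * ξ) = ff e (th ξ k * y' + (j + 1) * ξ) := by
  by_contra hne
  have hx : |th ξ k * y| ≤ |th ξ k| := by
    rw [abs_mul]; exact mul_le_of_le_one_right (abs_nonneg _) hy
  have hx' : |th ξ k * y'| ≤ |th ξ k| := by
    rw [abs_mul]; exact mul_le_of_le_one_right (abs_nonneg _) hy'
  obtain ⟨v, hv, -, h2⟩ := lattice h0 hi k _ _ hx hx' j hj hne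
  apply h2
  rw [th_eq_rr h0 hi k]
  rw [show 2 * (th ξ k * y) + v.1 * (rr ξ k * th ξ k) + v.2 * th ξ k =
    th ξ k * (2 * y + v.1 * rr ξ k + v.2) by ring,
    show 2 * (th ξ k * y') + v.1 * (rr ξ k * th ξ k) + v.2 * th ξ k =
    th ξ k * (2 * y' + v.1 * rr ξ k + v.2) by ring]
  have hA := congrArg Prod.fst hc
  have hB := congrArg Prod.snd hc
  have hA' : (0 ≤ 2 * y + v.1 * rr ξ k + v.2) ↔ (0 ≤ 2 * y' + v.1 * rr ξ k + v.2) := by
    have := Set.ext_iff.1 hA v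
    simp only [cell, Set.mem_ofPred_eq, hv, true_and] at this
    exact this
  have hB' : (2 * y + v.1 * rr ξ k + v.2 ≤ 0) ↔ (2 * y' + v.1 * rr ξ k + v.2 ≤ 0) := by
    have := Set.ext_iff.1 hB v
    simp only [cell, Set.mem_ofPred_eq, hv, true_and] at this
    exact this
  rcases lt_or_gt_of_ne (th_ne h0 hi k) with h | h
  · have key : ∀ z : ℝ, 0 ≤ th ξ k * z ↔ z ≤ 0 := by
      intro z
      constructor
      · intro hz
        by_contra hc'
        rw [not_le] at hc'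
        exact absurd hz (not_le.2 (mul_neg_of_neg_of_pos h hc'))
      · intro hz
        exact mul_nonneg_of_nonpos_of_nonpos h.le hz
    rw [key, key]
    exact hB'
  · rw [mul_nonneg_iff_of_pos_left h, mul_nonneg_iff_of_pos_left h]
    exact hA'

theorem FF_cell (h0 : 0 < ξ) (hi : Irrational ξ) (k : ℕ) (y y' : ℝ) (hy : |y| ≤ 1)
    (hy' : |y'| ≤ 1) (hc : cell (rr ξ k) y = cell (rr ξ k) y') (n : ℕ)
    (hn : n ≤ qq ξ (k + 1) + qq ξ k) :
    FF e ξ (th ξ k * y) n = FF e ξ (th ξ k * y') n := by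
  unfold FF
  refine Finset.sum_congr rfl fun j hj => ?_
  rw [Finset.mem_range] at hj
  exact ff_cell h0 hi k y y' hy hy' hc j (by omega)

/-- the finite set of possible cells -/
def cells : Set (Set (ℤ × ℤ) × Set (ℤ × ℤ)) :=
  {s | s ⊆ (box : Set (ℤ × ℤ))} ×ˢ {s | s ⊆ (box : Set (ℤ × ℤ))}

theorem cells_finite : cells.Finite := by
  unfold cells
  exact (box.finite_toSet.finite_subsets).prod (box.finite_toSet.finite_subsets)

theorem cell_mem (r y : ℝ) : cell r y ∈ cells := by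
  unfold cell cells
  exact ⟨fun v hv => hv.1, fun v hv => hv.1⟩

end Pool.Agent.NH93.Rec
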