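import Mathlib
import Pool.Agent.NH93.Rec.Cell

/-!
# Self-similarity of the walk at two levels (MP_425be5_nt)
-/

set_option autoImplicit false

open Set

namespace Pool.Agent.NH93.Rec

variable {e : ℤ} {ξ : ℝ}

/-- all partial sums before time `n` are smaller than `z` -/
def UU (e : ℤ) (ξ x : ℝ) (n : ℕ) (z : ℤ) : Prop := ∀ m < n, FF e ξ x m < z

theorem UU_add (x : ℝ) (m n : ℕ) (z : ℤ) : UU e ξ x (m + n) z ↔
    UU e ξ x m z ∧ UU e ξ (x + m * ξ) n (z - FF e ξ x m) := by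
  unfold UU
  constructor
  · intro h
    refine ⟨fun l hl => h l (by omega), fun l hl => ?_⟩
    have := h (m + l) (by omega)
    rw [FF_add] at this
    linarith
  · rintro ⟨h1, h2⟩ l hl
    by_cases hlm : l < m
    · exact h1 l hlm
    · obtain ⟨l', rfl⟩ : ∃ l', l = m + l' := ⟨l - m, by omega⟩
      have := h2 l' (by omega)
      rw [FF_add]
      linarith

theorem UU_mono {x : ℝ} {n : ℕ} {z z' : ℤ} (h : z ≤ z') (hU : UU e ξ x n z) : UU e ξ x n z' :=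
  fun m hm => lt_of_lt_of_le (hU m hm) h

theorem UU_qq (x : ℝ) (c k n : ℕ) (z : ℤ) :
    UU e ξ (x + (c * qq ξ k : ℕ) * ξ) n z ↔ UU e ξ (x + c * th ξ k) n z := by
  unfold UU
  simp only [FF_qq]

/-- shift similarity of two blocks -/
def Sm (e : ℤ) (ξ : ℝ) (Δ : ℤ) (x : ℝ) (m : ℕ) (x' : ℝ) (m' : ℕ) : Prop :=
  FF e ξ x m = FF e ξ x' m' ∧ ∀ z, (UU e ξ x m z ↔ UU e ξ x' m' (z + Δ))

theorem Sm_zero (Δ : ℤ) (x x' : ℝ) : Sm e ξ Δ x 0 x' 0 := by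
  refine ⟨by rw [FF_zero, FF_zero], fun z => ?_⟩
  unfold UU
  simp

theorem Sm_add {Δ : ℤ} {x x' : ℝ} {m m' n n' : ℕ} (h1 : Sm e ξ Δ x m x' m')
    (h2 : Sm e ξ Δ (x + m * ξ) n (x' + m' * ξ) n') : Sm e ξ Δ x (m + n) x' (m' + n') := by
  refine ⟨by rw [FF_add, FF_add, h1.1, h2.1], fun z => ?_⟩
  rw [UU_add, UU_add, h1.2, h2.2, ← h1.1]
  have : z - FF e ξ x m + Δ = z + Δ - FF e ξ x m := by ring
  rw [this]

theorem Sm_qq {Δ : ℤ} {x x' : ℝ} {c k n c' k' n' : ℕ} :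
    Sm e ξ Δ (x + (c * qq ξ k : ℕ) * ξ) n (x' + (c' * qq ξ k' : ℕ) * ξ) n' ↔
      Sm e ξ Δ (x + c * th ξ k) n (x' + c' * th ξ k') n' := by
  unfold Sm
  simp only [FF_qq, UU_qq]

/-- the range of the normalised coordinates at level `k + 1` -/
def JJ (ξ : ℝ) (k : ℕ) : Set ℝ := Icc (-1) (1 / cq ξ (k + 2))

theorem JJ_abs (h0 : 0 < ξ) (hi : Irrational ξ) {k : ℕ} {y : ℝ} (hy : y ∈ JJ ξ k) : |y| ≤ 1 := by
  rw [abs_le]
  refine ⟨hy.1, hy.2.trans ?_⟩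
  rw [div_le_one (cq_pos h0 hi _)]
  exact (one_lt_cq h0 hi (k + 1)).le

theorem JJ_zero (h0 : 0 < ξ) (hi : Irrational ξ) (k : ℕ) : (0 : ℝ) ∈ JJ ξ k :=
  ⟨by norm_num, (div_pos one_pos (cq_pos h0 hi _)).le⟩

theorem JJ_step (h0 : 0 < ξ) (hi : Irrational ξ) {k : ℕ} {y : ℝ} (hy : y ∈ JJ ξ (k + 1)) (b : ℕ)
    (hb : b ≤ aq ξ (k + 2)) : rr ξ k * (y + b) ∈ JJ ξ k := by
  have c := cq_pos h0 hi (k + 2)
  have hs := cq_step (ξ := ξ) (k + 2)
  have hb' : (b : ℝ) ≤ aq ξ (k + 2) := by exact_mod_cast hb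
  have hb0 : (0 : ℝ) ≤ b := by positivity
  have h1 : -1 ≤ y + b := by linarith [hy.1]
  have h2 : y + b ≤ cq ξ (k + 2) := by
    rw [hs]
    have := hy.2
    rw [show k + 1 + 2 = k + 2 + 1 by ring] at this
    linarith
  unfold rr JJ
  rw [show -(1 / cq ξ (k + 2)) * (y + b) = -(y + b) / cq ξ (k + 2) by ring]
  constructor
  · rw [le_div_iff₀ c]; linarith
  · rw [div_le_div_iff_of_pos_right c]; linarith

/-- similarity of two levels -/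
structure Sim (e : ℤ) (ξ : ℝ) (k k' : ℕ) (Δ : ℤ) : Prop where
  cqe : cq ξ (k + 2) = cq ξ (k' + 2)
  s1 : ∀ y ∈ JJ ξ k, Sm e ξ Δ (th ξ k * y) (qq ξ (k + 1)) (th ξ k' * y) (qq ξ (k' + 1))
  s0 : ∀ y ∈ JJ ξ k, Sm e ξ Δ (th ξ k * y) (qq ξ k) (th ξ k' * y) (qq ξ k')

theorem aq_of_cq {k k' : ℕ} (h : cq ξ k = cq ξ k') : aq ξ k = aq ξ k' := by
  unfold aq; rw [h]

theorem cq_of_cq {k k' : ℕ} (h : cq ξ k = cq ξ k') : cq ξ (k + 1) = cq ξ (k' + 1) := by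
  rw [cq_succ, cq_succ, h, aq_of_cq h]

theorem rr_of_cq {k k' : ℕ} (h : cq ξ (k + 2) = cq ξ (k' + 2)) : rr ξ k = rr ξ k' := by
  unfold rr; rw [h]

theorem JJ_of_cq {k k' : ℕ} (h : cq ξ (k + 2) = cq ξ (k' + 2)) : JJ ξ k = JJ ξ k' := by
  unfold JJ; rw [h]

theorem Sim_block (h0 : 0 < ξ) (hi : Irrational ξ) {k k' : ℕ} {Δ : ℤ} (h : Sim e ξ k k' Δ)
    {y : ℝ} (hy : y ∈ JJ ξ (k + 1)) (b : ℕ) (hb : b ≤ aq ξ (k + 2)) :
    Sm e ξ Δ (th ξ (k + 1) * y) (b * qq ξ (k + 1)) (th ξ (k' + 1) * y) (b * qq ξ (k' + 1)) := by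
  induction b with
  | zero => rw [zero_mul, zero_mul]; exact Sm_zero _ _ _
  | succ b ih =>
    rw [add_mul, add_mul, one_mul, one_mul]
    refine Sm_add (ih (by omega)) ?_
    rw [Sm_qq]
    have h1 := h.s1 _ (JJ_step h0 hi hy b (by omega))
    rw [th_eq_rr h0 hi k, th_eq_rr h0 hi k', ← rr_of_cq h.cqe]
    rw [show rr ξ k * th ξ k * y + b * (rr ξ k * th ξ k) = th ξ k * (rr ξ k * (y + b)) by ring,
      show rr ξ k * th ξ k' * y + b * (rr ξ k * th ξ k') = th ξ k' * (rr ξ k * (y + b)) by ring]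
    exact h1

theorem Sim_step (h0 : 0 < ξ) (hi : Irrational ξ) {k k' : ℕ} {Δ : ℤ} (h : Sim e ξ k k' Δ) :
    Sim e ξ (k + 1) (k' + 1) Δ := by
  have ha : aq ξ (k + 2) = aq ξ (k' + 2) := aq_of_cq h.cqe
  refine ⟨?_, ?_, ?_⟩
  · rw [show k + 1 + 2 = k + 2 + 1 by ring, show k' + 1 + 2 = k' + 2 + 1 by ring]
    exact cq_of_cq h.cqe
  · intro y hy
    rw [show k + 1 + 1 = k + 2 by ring, show k' + 1 + 1 = k' + 2 by ring, qq_add_two, qq_add_two,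
      ← ha]
    refine Sm_add (Sim_block h0 hi h hy _ le_rfl) ?_
    rw [Sm_qq]
    have h1 := h.s0 _ (JJ_step h0 hi hy (aq ξ (k + 2)) le_rfl)
    rw [th_eq_rr h0 hi k, th_eq_rr h0 hi k', ← rr_of_cq h.cqe]
    rw [show rr ξ k * th ξ k * y + aq ξ (k + 2) * (rr ξ k * th ξ k) =
        th ξ k * (rr ξ k * (y + aq ξ (k + 2))) by ring,
      show rr ξ k * th ξ k' * y + aq ξ (k + 2) * (rr ξ k * th ξ k') =
        th ξ k' * (rr ξ k * (y + aq ξ (k + 2))) by ring]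
    exact h1
  · intro y hy
    have h1 := h.s1 _ (JJ_step h0 hi hy 0 (by omega))
    rw [th_eq_rr h0 hi k, th_eq_rr h0 hi k', ← rr_of_cq h.cqe]
    rw [Nat.cast_zero, add_zero] at h1
    rw [show rr ξ k * th ξ k * y = th ξ k * (rr ξ k * y) by ring,
      show rr ξ k * th ξ k' * y = th ξ k' * (rr ξ k * y) by ring]
    exact h1

theorem Sim_add (h0 : 0 < ξ) (hi : Irrational ξ) {k k' : ℕ} {Δ : ℤ} (h : Sim e ξ k k' Δ) (m : ℕ) :
    Sim e ξ (k + m) (k' + m) Δ := by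
  induction m with
  | zero => exact h
  | succ m ih => rw [← add_assoc, ← add_assoc]; exact Sim_step h0 hi ih

/-! ### the reference maximum -/

theorem exists_mu (h0 : 0 < ξ) (hi : Irrational ξ) (k : ℕ) :
    ∃ μ : ℤ, ∀ z, UU e ξ 0 (qq ξ (k + 1)) z ↔ μ < z := by
  have hne : (Finset.range (qq ξ (k + 1))).Nonempty := by
    rw [Finset.nonempty_range_iff]
    have := qq_pos h0 hi (k + 1)
    omega
  obtain ⟨m, hm, hmax⟩ := Finset.exists_max_image (Finset.range (qq ξ (k + 1)))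
    (fun n => FF e ξ 0 n) hne
  refine ⟨FF e ξ 0 m, fun z => ⟨fun h => h m (Finset.mem_range.1 hm), fun h n hn => ?_⟩⟩
  exact lt_of_le_of_lt (hmax n (Finset.mem_range.2 hn)) h

open Classical in
/-- the maximum of the walk from `0` before time `q_(k+1)` -/
noncomputable def mu (e : ℤ) (ξ : ℝ) (k : ℕ) : ℤ :=
  if h : ∃ μ : ℤ, ∀ z, UU e ξ 0 (qq ξ (k + 1)) z ↔ μ < z then h.choose else 0

theorem mu_spec (h0 : 0 < ξ) (hi : Irrational ξ) (k : ℕ) (z : ℤ) :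
    UU e ξ 0 (qq ξ (k + 1)) z ↔ mu e ξ k < z := by
  unfold mu
  rw [dif_pos (exists_mu h0 hi k)]
  exact (exists_mu h0 hi k).choose_spec z

theorem mu_le (h0 : 0 < ξ) (hi : Irrational ξ) (k n : ℕ) (hn : n < qq ξ (k + 1)) :
    FF e ξ 0 n ≤ mu e ξ k := by
  have h := (mu_spec (e := e) h0 hi k (mu e ξ k + 1)).2 (by omega) n hn
  omega

theorem mu_att (h0 : 0 < ξ) (hi : Irrational ξ) (k : ℕ) :
    ∃ n < qq ξ (k + 1), FF e ξ 0 n = mu e ξ k := by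
  by_contra hc
  push Not at hc
  have h : UU e ξ 0 (qq ξ (k + 1)) (mu e ξ k) := fun n hn =>
    lt_of_le_of_ne (mu_le h0 hi k n hn) (hc n hn)
  exact lt_irrefl _ ((mu_spec h0 hi k _).1 h)

theorem mu_sim (h0 : 0 < ξ) (hi : Irrational ξ) {k k' : ℕ} {Δ : ℤ} (h : Sim e ξ k k' Δ) :
    mu e ξ k' = mu e ξ k + Δ := by
  have h1 := (h.s1 0 (JJ_zero h0 hi k)).2
  rw [mul_zero, mul_zero] at h1
  have h2 : ∀ z, mu e ξ k < z ↔ mu e ξ k' < z + Δ := fun z => by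
    rw [← mu_spec h0 hi k, ← mu_spec h0 hi k']
    exact h1 z
  have a := (h2 (mu e ξ k + 1)).1 (by omega)
  have b := (h2 (mu e ξ k' - Δ + 1)).2 (by omega)
  omega

/-! ### bounds -/

/-- values of the walk from a nearby point -/
theorem FF_le_mu (he : |e| = 1) (h0 : 0 < ξ) (hi : Irrational ξ) (k n : ℕ)
    (hn : n < qq ξ (k + 1)) {y : ℝ} (hy : |y| ≤ 1) : FF e ξ (th ξ k * y) n ≤ mu e ξ k + 338 := by
  have h1 := mu_le (e := e) h0 hi k n hn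
  have hx : |th ξ k * y| ≤ |th ξ k| := by
    rw [abs_mul]; exact mul_le_of_le_one_right (abs_nonneg _) hy
  have h2 := (abs_le.1 (FF_var he h0 hi k (th ξ k * y) 0 hx (by simp) n (by omega))).2
  omega

theorem UU_true (he : |e| = 1) (h0 : 0 < ξ) (hi : Irrational ξ) (k n : ℕ)
    (hn : n ≤ qq ξ (k + 1)) {y : ℝ} (hy : |y| ≤ 1) {z : ℤ} (hz : mu e ξ k + 338 < z) :
    UU e ξ (th ξ k * y) n z := fun m hm =>
  lt_of_le_of_lt (FF_le_mu he h0 hi k m (by omega) hy) hz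

/-- a point in a short block close to the maximum -/
theorem exists_short (he : |e| = 1) (h0 : 0 < ξ) (hi : Irrational ξ) (k A : ℕ)
    (hA : qq ξ (k + 1) ≤ A * qq ξ k) : ∃ n < qq ξ k, mu e ξ k - 6 * A ≤ FF e ξ 0 n := by
  obtain ⟨n, hn, hmax⟩ := mu_att (e := e) h0 hi k
  have hq := qq_pos h0 hi k
  have key : ∀ c m : ℕ, FF e ξ 0 (m + c * qq ξ k) ≤ FF e ξ 0 m + 6 * c := by
    intro c m
    induction c with
    | zero => simp
    | succ c ih =>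
      have h1 : m + (c + 1) * qq ξ k = (m + c * qq ξ k) + qq ξ k := by ring
      rw [h1, FF_add]
      have h2 := (abs_le.1 (FF_DK he h0 hi (0 + ((m + c * qq ξ k : ℕ) : ℝ) * ξ) k)).2
      push_cast at h2 ⊢
      linarith
  refine ⟨n % qq ξ k, Nat.mod_lt _ hq, ?_⟩
  have h1 := key (n / qq ξ k) (n % qq ξ k)
  have h2 : n % qq ξ k + n / qq ξ k * qq ξ k = n := by
    rw [mul_comm]; exact Nat.mod_add_div _ _
  rw [h2, hmax] at h1
  have h3 : n / qq ξ k ≤ A := by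
    apply Nat.div_le_of_le_mul
    rw [mul_comm]
    omega
  have h4 : ((n / qq ξ k : ℕ) : ℤ) ≤ A := by exact_mod_cast h3
  linarith

theorem UU_false (he : |e| = 1) (h0 : 0 < ξ) (hi : Irrational ξ) (k A n : ℕ)
    (hA : qq ξ (k + 1) ≤ A * qq ξ k) (hn : qq ξ k ≤ n) {y : ℝ} (hy : |y| ≤ 1) {z : ℤ}
    (hz : z ≤ mu e ξ k - 6 * A - 338) : ¬ UU e ξ (th ξ k * y) n z := by
  intro h
  obtain ⟨m, hm, hm2⟩ := exists_short he h0 hi k A hA
  have h1 := h m (by omega)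
  have hx : |th ξ k * y| ≤ |th ξ k| := by
    rw [abs_mul]; exact mul_le_of_le_one_right (abs_nonneg _) hy
  have h2 := (abs_le.1 (FF_var he h0 hi k (th ξ k * y) 0 hx (by simp) m (by omega))).1
  omega

/-- the finite data attached to a level -/
noncomputable def Dat (e : ℤ) (ξ : ℝ) (C : ℤ) (k : ℕ) :
    ℝ × Set ((Set (ℤ × ℤ) × Set (ℤ × ℤ)) × ℤ × ℤ × Set ℤ × Set ℤ) :=
  (cq ξ (k + 2), (fun y => (cell (rr ξ k) y, FF e ξ (th ξ k * y) (qq ξ (k + 1)),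
    FF e ξ (th ξ k * y) (qq ξ k),
    {j | j ∈ Icc (-C) C ∧ UU e ξ (th ξ k * y) (qq ξ (k + 1)) (mu e ξ k + j)},
    {j | j ∈ Icc (-C) C ∧ UU e ξ (th ξ k * y) (qq ξ k) (mu e ξ k + j)})) '' JJ ξ k)

theorem Dat_mem (he : |e| = 1) (h0 : 0 < ξ) (hi : Irrational ξ) (Z : Set ℝ)
    (hZ : ∀ k, cq ξ (k + 2) ∈ Z) (C : ℤ) (k : ℕ) :
    Dat e ξ C k ∈ Z ×ˢ {s | s ⊆ cells ×ˢ Icc (-6 : ℤ) 6 ×ˢ Icc (-6 : ℤ) 6 ×ˢ
      {s : Set ℤ | s ⊆ Icc (-C) C} ×ˢ {s : Set ℤ | s ⊆ Icc (-C) C}} := by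
  refine ⟨hZ k, ?_⟩
  rintro _ ⟨y, -, rfl⟩
  refine ⟨cell_mem _ _, ?_, ?_, fun j hj => hj.1, fun j hj => hj.1⟩
  · exact abs_le.1 (FF_DK he h0 hi _ _)
  · exact abs_le.1 (FF_DK he h0 hi _ _)

theorem Dat_finite (Z : Set ℝ) (hZ : Z.Finite) (C : ℤ) :
    (Z ×ˢ {s | s ⊆ cells ×ˢ Icc (-6 : ℤ) 6 ×ˢ Icc (-6 : ℤ) 6 ×ˢ
      {s : Set ℤ | s ⊆ Icc (-C) C} ×ˢ {s : Set ℤ | s ⊆ Icc (-C) C}}).Finite := by
  refine hZ.prod (Set.Finite.finite_subsets ?_)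
  exact cells_finite.prod ((finite_Icc _ _).prod ((finite_Icc _ _).prod
    ((finite_Icc _ _).finite_subsets.prod (finite_Icc _ _).finite_subsets)))

theorem Sim_of_Dat (he : |e| = 1) (h0 : 0 < ξ) (hi : Irrational ξ) (A : ℕ)
    (hA : ∀ k, qq ξ (k + 1) ≤ A * qq ξ k) (C : ℤ) (hC : 6 * A + 338 ≤ C) (k k' : ℕ)
    (h : Dat e ξ C k = Dat e ξ C k') : Sim e ξ k k' (mu e ξ k' - mu e ξ k) := by
  have h1 : cq ξ (k + 2) = cq ξ (k' + 2) := congrArg Prod.fst h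
  have h2 := congrArg Prod.snd h
  have hJ := JJ_of_cq h1
  have hr := rr_of_cq h1
  simp only [Dat] at h2
  have key : ∀ y ∈ JJ ξ k, (FF e ξ (th ξ k * y) (qq ξ (k + 1)) =
      FF e ξ (th ξ k' * y) (qq ξ (k' + 1))) ∧ (FF e ξ (th ξ k * y) (qq ξ k) =
      FF e ξ (th ξ k' * y) (qq ξ k')) ∧
      (∀ j ∈ Icc (-C) C, (UU e ξ (th ξ k * y) (qq ξ (k + 1)) (mu e ξ k + j) ↔
        UU e ξ (th ξ k' * y) (qq ξ (k' + 1)) (mu e ξ k' + j))) ∧
      (∀ j ∈ Icc (-C) C, (UU e ξ (th ξ k * y) (qq ξ k) (mu e ξ k + j) ↔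
        UU e ξ (th ξ k' * y) (qq ξ k') (mu e ξ k' + j))) := by
    intro y hy
    have hm := mem_image_of_mem (fun y => (cell (rr ξ k) y, FF e ξ (th ξ k * y) (qq ξ (k + 1)),
      FF e ξ (th ξ k * y) (qq ξ k),
      {j | j ∈ Icc (-C) C ∧ UU e ξ (th ξ k * y) (qq ξ (k + 1)) (mu e ξ k + j)},
      {j | j ∈ Icc (-C) C ∧ UU e ξ (th ξ k * y) (qq ξ k) (mu e ξ k + j)})) hy
    rw [h2] at hm
    obtain ⟨y', hy', heq⟩ := hm
    simp only [Prod.mk.injEq] at heq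
    obtain ⟨g1, g2, g3, g4, g5⟩ := heq
    have hya : |y| ≤ 1 := JJ_abs h0 hi hy
    have hya' : |y'| ≤ 1 := JJ_abs h0 hi hy'
    rw [hr] at g1
    have hF : ∀ n ≤ qq ξ (k' + 1) + qq ξ k', FF e ξ (th ξ k' * y') n = FF e ξ (th ξ k' * y) n :=
      fun n hn => FF_cell h0 hi k' y' y hya' hya g1 n hn
    have hU : ∀ n ≤ qq ξ (k' + 1) + qq ξ k', ∀ z, UU e ξ (th ξ k' * y') n z ↔
        UU e ξ (th ξ k' * y) n z := by
      intro n hn z
      unfold UU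
      constructor
      · intro hh m hm
        rw [← hF m (by omega)]; exact hh m hm
      · intro hh m hm
        rw [hF m (by omega)]; exact hh m hm
    refine ⟨?_, ?_, ?_, ?_⟩
    · rw [← g2]; exact hF _ (by omega)
    · rw [← g3]; exact hF _ (by omega)
    · intro j hj
      have := Set.ext_iff.1 g4 j
      simp only [Set.mem_ofPred_eq, hj, true_and] at this
      rw [← this]; exact hU _ (by omega) _
    · intro j hj
      have := Set.ext_iff.1 g5 j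
      simp only [Set.mem_ofPred_eq, hj, true_and] at this
      rw [← this]; exact hU _ (by omega) _
  refine ⟨h1, ?_, ?_⟩
  · intro y hy
    have hya : |y| ≤ 1 := JJ_abs h0 hi hy
    obtain ⟨k1, k2, k3, k4⟩ := key y hy
    refine ⟨k1, fun z => ?_⟩
    by_cases hz1 : z - mu e ξ k < -C
    · refine iff_of_false (UU_false he h0 hi k A _ (hA k) (qq_mono_succ h0 hi k) hya (by omega))
        (UU_false he h0 hi k' A _ (hA k') (qq_mono_succ h0 hi k') hya (by omega))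
    by_cases hz2 : C < z - mu e ξ k
    · exact iff_of_true (UU_true he h0 hi k _ le_rfl hya (by omega))
        (UU_true he h0 hi k' _ le_rfl hya (by omega))
    have := k3 (z - mu e ξ k) ⟨by omega, by omega⟩
    rw [show mu e ξ k + (z - mu e ξ k) = z by ring, show mu e ξ k' + (z - mu e ξ k) =
      z + (mu e ξ k' - mu e ξ k) by ring] at this
    exact this
  · intro y hy
    have hya : |y| ≤ 1 := JJ_abs h0 hi hy
    obtain ⟨k1, k2, k3, k4⟩ := key y hy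
    refine ⟨k2, fun z => ?_⟩
    by_cases hz1 : z - mu e ξ k < -C
    · refine iff_of_false (UU_false he h0 hi k A _ (hA k) le_rfl hya (by omega))
        (UU_false he h0 hi k' A _ (hA k') le_rfl hya (by omega))
    by_cases hz2 : C < z - mu e ξ k
    · exact iff_of_true (UU_true he h0 hi k _ (qq_mono_succ h0 hi k) hya (by omega))
        (UU_true he h0 hi k' _ (qq_mono_succ h0 hi k') hya (by omega))
    have := k4 (z - mu e ξ k) ⟨by omega, by omega⟩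
    rw [show mu e ξ k + (z - mu e ξ k) = z by ring, show mu e ξ k' + (z - mu e ξ k) =
      z + (mu e ξ k' - mu e ξ k) by ring] at this
    exact this

/-- existence of two similar levels -/
theorem exists_sim (he : |e| = 1) (h0 : 0 < ξ) (hi : Irrational ξ) (A : ℕ)
    (hA : ∀ k, qq ξ (k + 1) ≤ A * qq ξ k) (Z : Set ℝ) (hZf : Z.Finite)
    (hZ : ∀ k, cq ξ (k + 2) ∈ Z) : ∃ k k' Δ, k < k' ∧ Sim e ξ k k' Δ := by
  set C : ℤ := 6 * A + 338 with hC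
  obtain ⟨k, k', hlt, heq⟩ := (Dat_finite Z hZf C).exists_lt_map_eq_of_forall_mem
    (f := Dat e ξ C) (Dat_mem he h0 hi Z hZ C)
  exact ⟨k, k', _, hlt, Sim_of_Dat he h0 hi A hA C le_rfl k k' heq⟩

end Pool.Agent.NH93.Rec
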