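import Mathlib
import Pool.Agent.NH93.Rec.Sim

/-!
# Words, values, and the classification of prefixes (MP_425be5_nt)
Words are stored with the least significant digit first.
-/

set_option autoImplicit false

open Set

namespace Pool.Agent.NH93.Rec

variable {e : ℤ} {ξ : ℝ}

/-- value of a digit list whose first digit is the digit of `q_k` -/
noncomputable def NV (ξ : ℝ) : ℕ → List ℕ → ℕ
  | _, [] => 0
  | k, b :: t => b * qq ξ k + NV ξ (k + 1) t

/-- normalised coordinate of a digit list whose first digit is the digit of `q_(k+1)` -/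
noncomputable def YY (ξ : ℝ) : ℕ → List ℕ → ℝ
  | _, [] => 0
  | k, b :: t => rr ξ k * (YY ξ (k + 1) t + b)

/-- Ostrowski digit conditions -/
def VV (ξ : ℝ) : ℕ → List ℕ → Prop
  | _, [] => True
  | k, b :: t => b ≤ aq ξ (k + 1) ∧ (k = 0 → b < aq ξ 1) ∧
      (t.head? = some (aq ξ (k + 2)) → b = 0) ∧ VV ξ (k + 1) t

theorem YY_mem (h0 : 0 < ξ) (hi : Irrational ξ) (t : List ℕ) (k : ℕ) (h : VV ξ (k + 1) t) :
    YY ξ k t ∈ JJ ξ k := by
  induction t generalizing k with
  | nil => exact JJ_zero h0 hi k
  | cons b t ih =>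
    obtain ⟨h1, -, -, h2⟩ := h
    exact JJ_step h0 hi (ih (k + 1) h2) b h1

theorem NV_YY (h0 : 0 < ξ) (hi : Irrational ξ) (t : List ℕ) (k : ℕ) :
    ∃ z : ℤ, (NV ξ (k + 1) t : ℝ) * ξ = th ξ k * YY ξ k t + z := by
  induction t generalizing k with
  | nil => exact ⟨0, by simp [NV, YY]⟩
  | cons b t ih =>
    obtain ⟨z, hz⟩ := ih (k + 1)
    refine ⟨b * pp ξ (k + 1) + z, ?_⟩
    simp only [NV, YY]
    push_cast
    rw [add_mul, hz]
    have h1 : th ξ (k + 1) = qq ξ (k + 1) * ξ - pp ξ (k + 1) := rfl
    have h2 := th_eq_rr h0 hi k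
    calc (b : ℝ) * qq ξ (k + 1) * ξ + (th ξ (k + 1) * YY ξ (k + 1) t + z) =
        b * (qq ξ (k + 1) * ξ - pp ξ (k + 1)) + b * pp ξ (k + 1) +
          (th ξ (k + 1) * YY ξ (k + 1) t + z) := by ring
      _ = b * th ξ (k + 1) + b * pp ξ (k + 1) + (th ξ (k + 1) * YY ξ (k + 1) t + z) := by rw [← h1]
      _ = _ := by rw [h2]; ring

theorem FF_NV (h0 : 0 < ξ) (hi : Irrational ξ) (t : List ℕ) (k n : ℕ) :
    FF e ξ 0 (NV ξ (k + 1) t + n) = FF e ξ 0 (NV ξ (k + 1) t) + FF e ξ (th ξ k * YY ξ k t) n := by
  obtain ⟨z, hz⟩ := NV_YY h0 hi t k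
  rw [FF_add, zero_add, hz, FF_int]

/-- the walk before the prefix, relative to the value at the prefix, stays below `z` -/
def PP (e : ℤ) (ξ : ℝ) (k : ℕ) (t : List ℕ) (z : ℤ) : Prop :=
  ∀ m < NV ξ (k + 1) t, FF e ξ 0 m - FF e ξ 0 (NV ξ (k + 1) t) < z

theorem PP_cons (h0 : 0 < ξ) (hi : Irrational ξ) (k b : ℕ) (t : List ℕ) (z : ℤ) :
    PP e ξ k (b :: t) z ↔
      PP e ξ (k + 1) t (z + FF e ξ (th ξ (k + 1) * YY ξ (k + 1) t) (b * qq ξ (k + 1))) ∧
      UU e ξ (th ξ (k + 1) * YY ξ (k + 1) t) (b * qq ξ (k + 1))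
        (z + FF e ξ (th ξ (k + 1) * YY ξ (k + 1) t) (b * qq ξ (k + 1))) := by
  have hN : NV ξ (k + 1) (b :: t) = NV ξ (k + 1 + 1) t + b * qq ξ (k + 1) := by
    simp only [NV]; ring
  unfold PP UU
  rw [hN]
  constructor
  · intro h
    refine ⟨fun m hm => ?_, fun m hm => ?_⟩
    · have := h m (by omega)
      rw [FF_NV h0 hi] at this
      linarith
    · have := h (NV ξ (k + 1 + 1) t + m) (by omega)
      rw [FF_NV h0 hi, FF_NV h0 hi] at this
      linarith
  · rintro ⟨h1, h2⟩ m hm
    rw [FF_NV h0 hi]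
    by_cases hc : m < NV ξ (k + 1 + 1) t
    · have := h1 m hc
      linarith
    · obtain ⟨m', rfl⟩ : ∃ m', m = NV ξ (k + 1 + 1) t + m' := ⟨m - NV ξ (k + 1 + 1) t, by omega⟩
      rw [FF_NV h0 hi]
      have := h2 m' (by omega)
      linarith

theorem YY_sim {k k' : ℕ} (h : cq ξ (k + 2) = cq ξ (k' + 2)) (t : List ℕ) :
    YY ξ k t = YY ξ k' t := by
  induction t generalizing k k' with
  | nil => rfl
  | cons b t ih =>
    simp only [YY]
    rw [rr_of_cq h, ih (k := k + 1) (k' := k' + 1) (cq_of_cq h)]

theorem VV_sim {k k' : ℕ} (h : cq ξ (k + 2) = cq ξ (k' + 2)) (t : List ℕ) :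
    VV ξ (k + 1) t ↔ VV ξ (k' + 1) t := by
  induction t generalizing k k' with
  | nil => exact Iff.rfl
  | cons b t ih =>
    simp only [VV]
    have h2 : cq ξ (k + 1 + 2) = cq ξ (k' + 1 + 2) := cq_of_cq h
    rw [ih (k := k + 1) (k' := k' + 1) h2, show k + 1 + 1 = k + 2 by ring,
      show k' + 1 + 1 = k' + 2 by ring, aq_of_cq h, aq_of_cq h2]
    simp

theorem PP_sim (h0 : 0 < ξ) (hi : Irrational ξ) (t : List ℕ) {k k' : ℕ} {Δ : ℤ}
    (h : Sim e ξ k k' Δ) (hv : VV ξ (k + 1) t) (z : ℤ) :
    PP e ξ k t z ↔ PP e ξ k' t (z + Δ) := by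
  induction t generalizing k k' z with
  | nil => simp [PP, NV]
  | cons b t ih =>
    obtain ⟨h1, -, -, h2⟩ := hv
    have hs := Sim_step h0 hi h
    have hy := YY_mem h0 hi t (k + 1) h2
    have hb := Sim_block h0 hi h hy b h1
    have hyy : YY ξ (k' + 1) t = YY ξ (k + 1) t := (YY_sim hs.cqe t).symm
    rw [PP_cons h0 hi, PP_cons h0 hi, hyy, ih hs h2, hb.2, ← hb.1]
    rw [show z + FF e ξ (th ξ (k + 1) * YY ξ (k + 1) t) (b * qq ξ (k + 1)) + Δ =
      z + Δ + FF e ξ (th ξ (k + 1) * YY ξ (k + 1) t) (b * qq ξ (k + 1)) by ring]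

/-! ### values of words -/

theorem NV_append (s t : List ℕ) (k : ℕ) :
    NV ξ k (s ++ t) = NV ξ k s + NV ξ (k + s.length) t := by
  induction s generalizing k with
  | nil => simp [NV]
  | cons b s ih =>
    simp only [List.cons_append, NV, List.length_cons]
    rw [ih, show k + 1 + s.length = k + (s.length + 1) by ring]
    ring

theorem VV_append_left (s t : List ℕ) (k : ℕ) (h : VV ξ k (s ++ t)) : VV ξ k s := by
  induction s generalizing k with
  | nil => trivial
  | cons b s ih =>
    obtain ⟨h1, h2, h3, h4⟩ := h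
    refine ⟨h1, h2, fun hh => h3 ?_, ih (k + 1) h4⟩
    cases s with
    | nil => simp at hh
    | cons c s => exact hh

theorem VV_append_right (s t : List ℕ) (k : ℕ) (h : VV ξ k (s ++ t)) :
    VV ξ (k + s.length) t := by
  induction s generalizing k with
  | nil => exact h
  | cons b s ih =>
    obtain ⟨h1, h2, h3, h4⟩ := h
    have := ih (k + 1) h4
    rw [List.length_cons, show k + (s.length + 1) = k + 1 + s.length by ring]
    exact this

theorem VV_congr (s t t' : List ℕ) (k : ℕ)
    (hf : t.head? = some (aq ξ (k + s.length + 1)) ↔ t'.head? = some (aq ξ (k + s.length + 1)))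
    (hv : VV ξ (k + s.length) t ↔ VV ξ (k + s.length) t') :
    VV ξ k (s ++ t) ↔ VV ξ k (s ++ t') := by
  induction s generalizing k with
  | nil => exact hv
  | cons b s ih =>
    simp only [List.cons_append, VV]
    rw [List.length_cons, show k + (s.length + 1) = k + 1 + s.length by ring] at hf hv
    rw [ih (k + 1) hf hv]
    cases s with
    | nil =>
      simp only [List.nil_append]
      rw [List.length_nil, add_zero, show k + 1 + 1 = k + 2 by ring] at hf
      rw [hf]
    | cons c s => simp only [List.cons_append, List.head?_cons]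

theorem NV_lt (h0 : 0 < ξ) (hi : Irrational ξ) (n : ℕ) : ∀ s : List ℕ, s.length = n →
    VV ξ 0 s → NV ξ 0 s < qq ξ n := by
  induction n using Nat.strong_induction_on with
  | _ n ih =>
    intro s hs hv
    rcases List.eq_nil_or_concat s with rfl | ⟨s', b, rfl⟩
    · simp only [List.length_nil] at hs
      subst hs
      simp only [NV]
      exact qq_pos h0 hi 0
    · rw [List.concat_eq_append] at hs hv ⊢
      rw [List.length_append, List.length_singleton] at hs
      rw [NV_append, zero_add]
      simp only [NV, add_zero]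
      have hv' := VV_append_left _ _ _ hv
      have hr := VV_append_right _ _ _ hv
      rw [zero_add] at hr
      obtain ⟨hb, hb0, -, -⟩ := hr
      have hN := ih s'.length (by omega) s' rfl hv'
      subst hs
      -- two cases
      rcases Nat.eq_zero_or_pos s'.length with hl | hl
      · have hs' : s' = [] := List.eq_nil_of_length_eq_zero hl
        subst hs'
        simp only [List.length_nil, zero_add] at hb0 ⊢
        simp only [NV, zero_add, qq_zero, mul_one, qq_one]
        exact hb0 trivial
      · obtain ⟨l, hl'⟩ : ∃ l, s'.length = l + 1 := ⟨s'.length - 1, by omega⟩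
        rw [hl'] at hb hN ⊢
        rw [qq_add_two]
        rcases hb.lt_or_eq with hlt | heq
        · have h1 : b + 1 ≤ aq ξ (l + 1 + 1) := hlt
          have h2 : (b + 1) * qq ξ (l + 1) ≤ aq ξ (l + 2) * qq ξ (l + 1) :=
            Nat.mul_le_mul_right _ h1
          rw [add_mul, one_mul] at h2
          omega
        · -- the previous digit vanishes
          rcases List.eq_nil_or_concat s' with rfl | ⟨s'', c, rfl⟩
          · simp at hl
          · rw [List.concat_eq_append] at hv hv' hN hl' ⊢
            rw [List.length_append, List.length_singleton] at hl'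
            have hl'' : s''.length = l := by omega
            have hr2 := VV_append_right s'' (c :: [b]) 0 (by
              rw [List.append_assoc] at hv; exact hv)
            rw [zero_add, hl''] at hr2
            obtain ⟨-, -, h3, -⟩ := hr2
            have hc : c = 0 := h3 (by rw [List.head?_cons, heq])
            subst hc
            rw [NV_append, zero_add]
            simp only [NV, zero_mul, add_zero]
            have hv'' := VV_append_left _ _ _ hv'
            have := ih l (by rw [List.length_concat]; omega) s'' hl'' hv''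
            rw [heq, show l + 1 + 1 = l + 2 from rfl]
            omega

theorem NV_ge (h0 : 0 < ξ) (hi : Irrational ξ) (t : List ℕ) (k : ℕ) (hne : t ≠ [])
    (hlast : t.getLast? ≠ some 0) : qq ξ k ≤ NV ξ k t := by
  induction t generalizing k with
  | nil => exact absurd rfl hne
  | cons b t ih =>
    simp only [NV]
    rcases t with - | ⟨c, t⟩
    · simp only [List.getLast?_singleton, ne_eq, Option.some.injEq] at hlast
      have : 1 * qq ξ k ≤ b * qq ξ k := Nat.mul_le_mul_right _ (by omega)
      omega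
    · have h1 := ih (k + 1) (by simp) (by rwa [List.getLast?_cons_cons] at hlast)
      have h2 := qq_mono_succ h0 hi k
      omega

end Pool.Agent.NH93.Rec
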