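import Mathlib
import Pool.Agent.NH93.Rec.Words

/-!
# The language of strict maxima is regular (MP_425be5_nt)
-/

set_option autoImplicit false

open Set

namespace Pool.Agent.NH93.Rec

variable {e : ℤ} {ξ : ℝ}

/-- `N` is a strict record from above of the walk with sign `e` -/
def Mx (e : ℤ) (ξ : ℝ) (N : ℕ) : Prop := ∀ m < N, FF e ξ 0 m < FF e ξ 0 N

theorem Mx_split (h0 : 0 < ξ) (hi : Irrational ξ) (k n : ℕ) (t : List ℕ) :
    Mx e ξ (NV ξ (k + 1) t + n) ↔
      UU e ξ (th ξ k * YY ξ k t) n (FF e ξ (th ξ k * YY ξ k t) n) ∧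
      PP e ξ k t (FF e ξ (th ξ k * YY ξ k t) n) := by
  unfold Mx UU PP
  constructor
  · intro h
    refine ⟨fun m hm => ?_, fun m hm => ?_⟩
    · have := h (NV ξ (k + 1) t + m) (by omega)
      rw [FF_NV h0 hi, FF_NV h0 hi] at this
      linarith
    · have := h m (by omega)
      rw [FF_NV h0 hi] at this
      linarith
  · rintro ⟨h1, h2⟩ m hm
    rw [FF_NV h0 hi]
    by_cases hc : m < NV ξ (k + 1) t
    · have := h2 m hc
      linarith
    · obtain ⟨m', rfl⟩ : ∃ m', m = NV ξ (k + 1) t + m' := ⟨m - NV ξ (k + 1) t, by omega⟩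
      rw [FF_NV h0 hi]
      have := h1 m' (by omega)
      linarith

/-- if the target is far below the reference maximum then the prefix condition fails -/
theorem PP_false (he : |e| = 1) (h0 : 0 < ξ) (hi : Irrational ξ) (k : ℕ) (t : List ℕ)
    (hv : VV ξ (k + 1) t) (hne : t ≠ []) (hlast : t.getLast? ≠ some 0) {z : ℤ}
    (hz : z ≤ mu e ξ k - 344) : ¬ PP e ξ k t z := by
  intro h
  have hN := NV_ge h0 hi t (k + 1) hne hlast
  obtain ⟨m, hm, hmax⟩ := mu_att (e := e) h0 hi k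
  have hy := JJ_abs h0 hi (YY_mem h0 hi t k hv)
  have hx : |th ξ k * YY ξ k t| ≤ |th ξ k| := by
    rw [abs_mul]; exact mul_le_of_le_one_right (abs_nonneg _) hy
  have h2 := (abs_le.1 (FF_var he h0 hi k (th ξ k * YY ξ k t) 0 hx (by simp) m (by omega))).1
  have h3 := FF_NV (e := e) h0 hi t k m
  set N := NV ξ (k + 1) t with hNdef
  obtain ⟨l, hl⟩ : ∃ l, N + m = l + qq ξ (k + 1) := ⟨N + m - qq ξ (k + 1), by omega⟩
  have h4 : FF e ξ 0 (N + m) ≤ FF e ξ 0 l + 6 := by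
    rw [hl, FF_add]
    have := (abs_le.1 (FF_DK he h0 hi (0 + (l : ℝ) * ξ) (k + 1))).2
    linarith
  have h5 := h l (by omega)
  rw [← hNdef] at h5
  linarith

/-- the finite information attached to a prefix at a level -/
noncomputable def Info (e : ℤ) (ξ : ℝ) (k : ℕ) (t : List ℕ) :
    Prop × Prop × (Set (ℤ × ℤ) × Set (ℤ × ℤ)) × Set ℤ :=
  (VV ξ (k + 1) t, t.head? = some (aq ξ (k + 2)), cell (rr ξ k) (YY ξ k t),
    {j | j ∈ Icc (-344) 338 ∧ PP e ξ k t (mu e ξ k + j)})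

/-- equality of the information for valid prefixes -/
def Rel (e : ℤ) (ξ : ℝ) (k : ℕ) (t t' : List ℕ) : Prop :=
  (VV ξ (k + 1) t ↔ VV ξ (k + 1) t') ∧ (VV ξ (k + 1) t → Info e ξ k t = Info e ξ k t')

theorem Info_sim (h0 : 0 < ξ) (hi : Irrational ξ) {k k' : ℕ} {Δ : ℤ} (h : Sim e ξ k k' Δ)
    (t : List ℕ) (hv : VV ξ (k + 1) t) : Info e ξ k t = Info e ξ k' t := by
  unfold Info
  rw [mu_sim h0 hi h]
  refine Prod.ext ?_ (Prod.ext ?_ (Prod.ext ?_ ?_))
  · simp only; rw [VV_sim h.cqe]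
  · simp only; rw [aq_of_cq h.cqe]
  · simp only; rw [rr_of_cq h.cqe, YY_sim h.cqe]
  · simp only
    ext j
    simp only [Set.mem_ofPred_eq]
    rw [PP_sim h0 hi t h hv, show mu e ξ k + j + Δ = mu e ξ k + Δ + j by ring]

theorem Rel_sim (h0 : 0 < ξ) (hi : Irrational ξ) {k k' : ℕ} {Δ : ℤ} (h : Sim e ξ k k' Δ)
    {t t' : List ℕ} (hR : Rel e ξ k t t') : Rel e ξ k' t t' := by
  obtain ⟨h1, h2⟩ := hR
  refine ⟨?_, fun hv => ?_⟩
  · rw [← VV_sim h.cqe, ← VV_sim h.cqe]; exact h1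
  · have hv1 : VV ξ (k + 1) t := (VV_sim h.cqe t).2 hv
    rw [← Info_sim h0 hi h t hv1, ← Info_sim h0 hi h t' (h1.1 hv1)]
    exact h2 hv1

theorem resid_aux (he : |e| = 1) (h0 : 0 < ξ) (hi : Irrational ξ) {k : ℕ} {t t' : List ℕ}
    (hne : t ≠ []) (hl : t.getLast? ≠ some 0)
    (hv : VV ξ (k + 1) t) (hv' : VV ξ (k + 1) t') (hI : Info e ξ k t = Info e ξ k t')
    (s : List ℕ) (hs : s.length = k + 1)
    (h : VV ξ 0 (s ++ t) ∧ Mx e ξ (NV ξ 0 (s ++ t))) :
    VV ξ 0 (s ++ t') ∧ Mx e ξ (NV ξ 0 (s ++ t')) := by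
  obtain ⟨hV, hM⟩ := h
  simp only [Info, Prod.mk.injEq] at hI
  obtain ⟨-, hf, hc, hp⟩ := hI
  have hV' : VV ξ 0 (s ++ t') := by
    refine (VV_congr s t t' 0 ?_ ?_).1 hV
    · rw [hs, zero_add, show k + 1 + 1 = k + 2 by ring]
      exact Iff.of_eq hf
    · rw [hs, zero_add]; exact iff_of_true hv hv'
  refine ⟨hV', ?_⟩
  have hn := NV_lt h0 hi (k + 1) s hs (VV_append_left _ _ _ hV)
  rw [NV_append, zero_add, hs, add_comm] at hM ⊢
  rw [Mx_split h0 hi] at hM ⊢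
  have hy := JJ_abs h0 hi (YY_mem h0 hi t k hv)
  have hy' := JJ_abs h0 hi (YY_mem h0 hi t' k hv')
  have hF : ∀ n ≤ qq ξ (k + 1) + qq ξ k, FF e ξ (th ξ k * YY ξ k t) n =
      FF e ξ (th ξ k * YY ξ k t') n := fun n hn => FF_cell h0 hi k _ _ hy hy' hc n hn
  obtain ⟨hM1, hM2⟩ := hM
  rw [hF _ (by omega)] at hM1 hM2
  refine ⟨fun m hm => ?_, ?_⟩
  · rw [← hF m (by omega)]; exact hM1 m hm
  · set z := FF e ξ (th ξ k * YY ξ k t') (NV ξ 0 s) with hz
    have hz1 : z ≤ mu e ξ k + 338 := FF_le_mu he h0 hi k _ hn hy'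
    by_cases hz2 : z ≤ mu e ξ k - 344
    · exact absurd hM2 (PP_false he h0 hi k t hv hne hl hz2)
    · have := Set.ext_iff.1 hp (z - mu e ξ k)
      have hj : z - mu e ξ k ∈ Icc (-344 : ℤ) 338 := ⟨by omega, by omega⟩
      simp only [Set.mem_ofPred_eq, hj, true_and] at this
      rw [show mu e ξ k + (z - mu e ξ k) = z by ring] at this
      exact this.1 hM2

/-- the language of (representations of) strict maxima, most significant digit first -/
def LL (e : ℤ) (ξ : ℝ) : Language ℕ :=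
  {w | VV ξ 0 w.reverse ∧ w.head? ≠ some 0 ∧ Mx e ξ (NV ξ 0 w.reverse)}

theorem mem_LL (w : List ℕ) : w ∈ LL e ξ ↔
    VV ξ 0 w.reverse ∧ w.head? ≠ some 0 ∧ Mx e ξ (NV ξ 0 w.reverse) := Iff.rfl

theorem resid (he : |e| = 1) (h0 : 0 < ξ) (hi : Irrational ξ) {u u' : List ℕ}
    (hL : u ∈ LL e ξ ↔ u' ∈ LL e ξ) (hn : u = [] ↔ u' = [])
    (hz : u.head? = some 0 ↔ u'.head? = some 0)
    (hR : ∀ k, Rel e ξ k u.reverse u'.reverse) (w : List ℕ) (h : u ++ w ∈ LL e ξ) :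
    u' ++ w ∈ LL e ξ := by
  rcases w with - | ⟨c, w⟩
  · rw [List.append_nil] at h ⊢; exact hL.1 h
  by_cases hu : u = []
  · have hu' := hn.1 hu
    subst hu; subst hu'; exact h
  have hu' : u' ≠ [] := fun hh => hu (hn.2 hh)
  obtain ⟨k, hk⟩ : ∃ k, (c :: w).length = k + 1 := ⟨w.length, by simp⟩
  set w' := c :: w with hw'
  rw [mem_LL, List.reverse_append, List.head?_append_of_ne_nil _ hu] at h
  rw [mem_LL, List.reverse_append, List.head?_append_of_ne_nil _ hu']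
  obtain ⟨h1, h2, h3⟩ := h
  have h2' : u'.head? ≠ some 0 := fun hh => h2 (hz.2 hh)
  have hv : VV ξ (k + 1) u.reverse := by
    have := VV_append_right _ _ _ h1
    rwa [List.length_reverse, hk, zero_add] at this
  have hr := hR k
  have hv' := hr.1.1 hv
  obtain ⟨h4, h5⟩ := resid_aux he h0 hi (t := u.reverse) (t' := u'.reverse) (by simpa using hu)
    (by rw [List.getLast?_reverse]; exact h2) hv hv' (hr.2 hv) w'.reverse
    (by rw [List.length_reverse, hk]) ⟨h1, h3⟩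
  exact ⟨h4, h2', h5⟩

/-- the class of a prefix -/
noncomputable def Psi (e : ℤ) (ξ : ℝ) (K : ℕ) (u : List ℕ) : Prop × Prop × Prop ×
    (Fin K → Prop × Prop × (Set (ℤ × ℤ) × Set (ℤ × ℤ)) × Set ℤ) :=
  (u ∈ LL e ξ, u = [], u.head? = some 0, fun k => Info e ξ k u.reverse)

theorem Psi_finite (K : ℕ) : (Set.range (Psi e ξ K)).Finite := by
  have h : ((Set.univ : Set Prop) ×ˢ ((Set.univ : Set Prop) ×ˢ ((Set.univ : Set Prop) ×ˢ
      (Set.univ.pi fun _ : Fin K => (Set.univ : Set Prop) ×ˢ ((Set.univ : Set Prop) ×ˢ (cells ×ˢ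
        {s : Set ℤ | s ⊆ Icc (-344) 338})))))).Finite := by
    refine Set.finite_univ.prod (Set.finite_univ.prod (Set.finite_univ.prod ?_))
    refine Set.Finite.pi fun _ => ?_
    exact Set.finite_univ.prod (Set.finite_univ.prod (cells_finite.prod
      (finite_Icc _ _).finite_subsets))
  refine h.subset ?_
  rintro _ ⟨u, rfl⟩
  refine ⟨mem_univ _, mem_univ _, mem_univ _, fun k _ => ⟨mem_univ _, mem_univ _,
    cell_mem _ _, fun j hj => hj.1⟩⟩

theorem LL_regular (he : |e| = 1) (h0 : 0 < ξ) (hi : Irrational ξ) (Z : Set ℝ)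
    (hZf : Z.Finite) (hZ : ∀ k, cq ξ (k + 2) ∈ Z) (A : ℕ)
    (hA : ∀ k, qq ξ (k + 1) ≤ A * qq ξ k) : (LL e ξ).IsRegular := by
  obtain ⟨k1, k2, Δ, hlt, hsim⟩ := exists_sim he h0 hi A hA Z hZf hZ
  apply Language.IsRegular.of_finite_range_leftQuotient
  have key : ∀ u u' : List ℕ, Psi e ξ k2 u = Psi e ξ k2 u' →
      (LL e ξ).leftQuotient u ≤ (LL e ξ).leftQuotient u' := by
    intro u u' h
    simp only [Psi, Prod.mk.injEq] at h
    obtain ⟨g1, g2, g3, g4⟩ := h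
    have hR : ∀ k, Rel e ξ k u.reverse u'.reverse := by
      intro k
      induction k using Nat.strong_induction_on with
      | _ k ih =>
        by_cases hk : k < k2
        · have := congrFun g4 ⟨k, hk⟩
          simp only at this
          refine ⟨?_, fun _ => this⟩
          have := congrArg Prod.fst this
          simp only [Info] at this
          exact Iff.of_eq this
        · obtain ⟨m, rfl⟩ : ∃ m, k = k2 + m := ⟨k - k2, by omega⟩
          exact Rel_sim h0 hi (Sim_add h0 hi hsim m) (ih (k1 + m) (by omega))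
    intro w hw
    exact resid he h0 hi (Iff.of_eq g1) (Iff.of_eq g2) (Iff.of_eq g3) hR w hw
  have hfac : ∀ u u' : List ℕ, Psi e ξ k2 u = Psi e ξ k2 u' →
      (LL e ξ).leftQuotient u = (LL e ξ).leftQuotient u' := fun u u' h =>
    le_antisymm (key u u' h) (key u' u h.symm)
  have hfin := Psi_finite (e := e) (ξ := ξ) k2
  choose g hg using fun x : Set.range (Psi e ξ k2) => x.2
  have : Set.range (LL e ξ).leftQuotient ⊆
      Set.range (fun x : Set.range (Psi e ξ k2) => (LL e ξ).leftQuotient (g x)) := by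
    rintro _ ⟨u, rfl⟩
    refine ⟨⟨Psi e ξ k2 u, u, rfl⟩, ?_⟩
    exact hfac _ _ (hg _)
  have hf : Finite (Set.range (Psi e ξ k2)) := hfin
  exact (Set.finite_range _).subset this

end Pool.Agent.NH93.Rec
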