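import Mathlib
import Pool.Agent.NH93.Rec.Auto

/-!
# Quadratic irrationals have finitely many complete quotients (MP_425be5_nt)
-/

set_option autoImplicit false

open Set

namespace Pool.Agent.NH93.Rec

variable {e : ℤ} {ξ : ℝ}

/-- the quadratic polynomial has finitely many roots -/
theorem quad_roots_finite (a b c : ℤ) (ha : a ≠ 0) :
    {x : ℝ | (a : ℝ) * x ^ 2 + b * x + c = 0}.Finite := by
  set P : Polynomial ℝ := Polynomial.C (a : ℝ) * Polynomial.X ^ 2 +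
    Polynomial.C (b : ℝ) * Polynomial.X + Polynomial.C (c : ℝ) with hP
  have hne : P ≠ 0 := by
    intro h
    have h2 : P.natDegree = 2 := by
      rw [hP]; exact Polynomial.natDegree_quadratic (by exact_mod_cast ha)
    rw [h, Polynomial.natDegree_zero] at h2
    exact absurd h2 (by norm_num)
  refine (Polynomial.finite_setOfPred_isRoot hne).subset ?_
  intro x hx
  simp only [Set.mem_ofPred_eq, Polynomial.IsRoot.def, hP, Polynomial.eval_add,
    Polynomial.eval_mul, Polynomial.eval_C, Polynomial.eval_pow, Polynomial.eval_X] at hx ⊢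
  exact hx

theorem abs_th_le_one (h0 : 0 < ξ) (hi : Irrational ξ) (n : ℕ) : |th ξ n| ≤ 1 := by
  have h1 := th_mul_le h0 hi n
  have h2 : (1 : ℝ) ≤ qq ξ n := by exact_mod_cast qq_pos h0 hi n
  nlinarith [abs_nonneg (th ξ n)]

theorem cq_finite (h0 : 0 < ξ) (hi : Irrational ξ) (a b c : ℤ) (ha : a ≠ 0)
    (h : (a : ℝ) * ξ ^ 2 + b * ξ + c = 0) :
    ∃ Z : Set ℝ, Z.Finite ∧ ∀ k, cq ξ (k + 2) ∈ Z := by
  set G : ℕ := ⌈2 * |2 * (a : ℝ) * ξ + b| + 2 * |(a : ℝ)|⌉₊ with hG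
  have hGle : 2 * |2 * (a : ℝ) * ξ + b| + 2 * |(a : ℝ)| ≤ G := Nat.le_ceil _
  refine ⟨⋃ v ∈ {v : ℤ × ℤ × ℤ | v ∈ Icc (-(G : ℤ)) G ×ˢ (Icc (-(G : ℤ)) G ×ˢ Icc (-(G : ℤ)) G) ∧
    v.1 ≠ 0}, {x : ℝ | (v.1 : ℝ) * x ^ 2 + v.2.1 * x + v.2.2 = 0}, ?_, ?_⟩
  · refine Set.Finite.biUnion ?_ ?_
    · refine Set.Finite.subset ((finite_Icc _ _).prod ((finite_Icc _ _).prod (finite_Icc _ _)))
        (fun v hv => hv.1)
    · intro v hv
      exact quad_roots_finite _ _ _ hv.2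
  · intro k
    -- the three coefficients
    have hform : ∀ n : ℕ, (((a * pp ξ n ^ 2 + b * pp ξ n * qq ξ n + c * qq ξ n ^ 2 : ℤ)) : ℝ) =
        -(th ξ n * ((2 * a * ξ + b) * qq ξ n - a * th ξ n)) := by
      intro n
      have : (((a * pp ξ n ^ 2 + b * pp ξ n * qq ξ n + c * qq ξ n ^ 2 : ℤ)) : ℝ) +
        (th ξ n * ((2 * a * ξ + b) * qq ξ n - a * th ξ n)) =
          (qq ξ n : ℝ) ^ 2 * ((a : ℝ) * ξ ^ 2 + b * ξ + c) := by
        unfold th; push_cast; ring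
      rw [h, mul_zero] at this
      linarith
    have hbd : ∀ n : ℕ, |(((a * pp ξ n ^ 2 + b * pp ξ n * qq ξ n + c * qq ξ n ^ 2 : ℤ)) : ℝ)| ≤ G := by
      intro n
      rw [hform, abs_neg]
      have t1 := th_mul_le h0 hi n
      have t2 := abs_th_le_one h0 hi n
      have t0 := abs_nonneg (th ξ n)
      have q0 : (0 : ℝ) ≤ qq ξ n := by positivity
      have g1 := abs_nonneg (2 * (a : ℝ) * ξ + b)
      have g2 := abs_nonneg (a : ℝ)
      calc |th ξ n * ((2 * a * ξ + b) * qq ξ n - a * th ξ n)| =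
          |(2 * a * ξ + b) * (qq ξ n * th ξ n) - a * (th ξ n * th ξ n)| := by congr 1; ring
        _ ≤ |(2 * a * ξ + b) * (qq ξ n * th ξ n)| + |a * (th ξ n * th ξ n)| := abs_sub _ _
        _ = |2 * a * ξ + b| * (qq ξ n * |th ξ n|) + |(a : ℝ)| * (|th ξ n| * |th ξ n|) := by
            rw [abs_mul, abs_mul, abs_mul, abs_mul, abs_of_nonneg q0]
        _ ≤ |2 * a * ξ + b| * 1 + |(a : ℝ)| * (1 * 1) := by gcongr
        _ ≤ G := by linarith
    set A : ℤ := a * pp ξ (k + 1) ^ 2 + b * pp ξ (k + 1) * qq ξ (k + 1) + c * qq ξ (k + 1) ^ 2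
      with hA
    set C : ℤ := a * pp ξ k ^ 2 + b * pp ξ k * qq ξ k + c * qq ξ k ^ 2 with hC
    set B : ℤ := 2 * a * pp ξ k * pp ξ (k + 1) + b * (pp ξ k * qq ξ (k + 1) +
      pp ξ (k + 1) * qq ξ k) + 2 * c * qq ξ k * qq ξ (k + 1) with hB
    have hA' : |(A : ℝ)| ≤ G := hbd (k + 1)
    have hC' : |(C : ℝ)| ≤ G := hbd k
    have hB' : |(B : ℝ)| ≤ G := by
      have e1 : (B : ℝ) = -((2 * a * ξ + b) * (qq ξ k * th ξ (k + 1))) -
          (2 * a * ξ + b) * (qq ξ (k + 1) * th ξ k) + 2 * a * (th ξ k * th ξ (k + 1)) := by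
        have : (B : ℝ) - (-((2 * a * ξ + b) * (qq ξ k * th ξ (k + 1))) -
          (2 * a * ξ + b) * (qq ξ (k + 1) * th ξ k) + 2 * a * (th ξ k * th ξ (k + 1))) =
            2 * (qq ξ k : ℝ) * qq ξ (k + 1) * ((a : ℝ) * ξ ^ 2 + b * ξ + c) := by
          rw [hB]; unfold th; push_cast; ring
        rw [h, mul_zero] at this
        linarith
      have s1 := qq_th_le h0 hi k
      have s2 := (abs_th_succ_lt h0 hi k).le
      have s3 := th_mul_le h0 hi k
      have t2 := abs_th_le_one h0 hi k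
      have t0 := abs_nonneg (th ξ k)
      have t1 := abs_nonneg (th ξ (k + 1))
      have q0 : (0 : ℝ) ≤ qq ξ k := by positivity
      have q1 : (0 : ℝ) ≤ qq ξ (k + 1) := by positivity
      have s4 : (qq ξ k : ℝ) * |th ξ (k + 1)| ≤ 1 :=
        (mul_le_mul_of_nonneg_left s2 q0).trans s3
      have g1 := abs_nonneg (2 * (a : ℝ) * ξ + b)
      have g2 := abs_nonneg (a : ℝ)
      rw [e1]
      calc _ ≤ |-((2 * a * ξ + b) * (qq ξ k * th ξ (k + 1))) -
          (2 * a * ξ + b) * (qq ξ (k + 1) * th ξ k)| + |2 * a * (th ξ k * th ξ (k + 1))| :=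
            abs_add_le _ _
        _ ≤ (|-((2 * a * ξ + b) * (qq ξ k * th ξ (k + 1)))| +
          |(2 * a * ξ + b) * (qq ξ (k + 1) * th ξ k)|) + |2 * a * (th ξ k * th ξ (k + 1))| := by
            gcongr; exact abs_sub _ _
        _ = |2 * a * ξ + b| * (qq ξ k * |th ξ (k + 1)|) +
          |2 * a * ξ + b| * (qq ξ (k + 1) * |th ξ k|) +
            2 * |(a : ℝ)| * (|th ξ k| * |th ξ (k + 1)|) := by
            rw [abs_neg, abs_mul, abs_mul, abs_mul, abs_mul, abs_mul, abs_mul, abs_mul,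
              abs_of_nonneg q0, abs_of_nonneg q1, abs_two]
        _ ≤ |2 * a * ξ + b| * 1 + |2 * a * ξ + b| * 1 + 2 * |(a : ℝ)| * (1 * 1) := by
            have : |th ξ (k + 1)| ≤ 1 := s2.trans t2
            gcongr
        _ ≤ G := by linarith
    have hA0 : A ≠ 0 := by
      intro hz
      have h1 := hform (k + 1)
      rw [← hA, hz, Int.cast_zero] at h1
      have h2 : (2 * a * ξ + b) * qq ξ (k + 1) - a * th ξ (k + 1) = 0 := by
        rcases mul_eq_zero.1 (neg_eq_zero.1 h1.symm) with h3 | h3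
        · exact absurd h3 (th_ne h0 hi _)
        · exact h3
      have hq : (qq ξ (k + 1) : ℝ) ≠ 0 := by
        have := qq_pos h0 hi (k + 1)
        positivity
      have ha' : (a : ℝ) ≠ 0 := by exact_mod_cast ha
      apply hi
      refine ⟨-((b * qq ξ (k + 1) + a * pp ξ (k + 1) : ℤ) : ℚ) / ((a * qq ξ (k + 1) : ℤ) : ℚ), ?_⟩
      push_cast
      unfold th at h2
      rw [div_eq_iff (mul_ne_zero ha' hq)]
      linear_combination -h2
    refine Set.mem_biUnion (x := (A, B, C)) ⟨⟨?_, ?_, ?_⟩, hA0⟩ ?_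
    · exact abs_le.1 (by exact_mod_cast hA')
    · exact abs_le.1 (by exact_mod_cast hB')
    · exact abs_le.1 (by exact_mod_cast hC')
    · simp only [Set.mem_ofPred_eq]
      have hth := th_succ h0 hi k
      set ρ := cq ξ (k + 2) with hρ
      set s : ℝ := qq ξ k + ρ * qq ξ (k + 1) with hs
      have e2 : (pp ξ k : ℝ) + ρ * pp ξ (k + 1) = s * ξ := by
        unfold th at hth
        rw [hs]
        linarith
      have e3 : (A : ℝ) * ρ ^ 2 + B * ρ + C = a * ((pp ξ k : ℝ) + ρ * pp ξ (k + 1)) ^ 2 +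
          b * ((pp ξ k : ℝ) + ρ * pp ξ (k + 1)) * s + c * s ^ 2 := by
        rw [hA, hB, hC, hs]; push_cast; ring
      rw [e3, e2]
      linear_combination s ^ 2 * h

theorem exists_A (h0 : 0 < ξ) (hi : Irrational ξ) (Z : Set ℝ) (hZf : Z.Finite)
    (hZ : ∀ k, cq ξ (k + 2) ∈ Z) : ∃ A : ℕ, (∀ k, qq ξ (k + 1) ≤ A * qq ξ k) ∧
      ∀ k, aq ξ (k + 1) ≤ A := by
  obtain ⟨M, hM⟩ := hZf.bddAbove
  set A : ℕ := aq ξ 1 + (⌊M⌋₊ + 1) with hA
  have h1 : ∀ k, aq ξ (k + 2) ≤ ⌊M⌋₊ := fun k => Nat.floor_mono (hM (hZ k))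
  refine ⟨A, fun k => ?_, fun k => ?_⟩
  · cases k with
    | zero => rw [zero_add, qq_one, qq_zero]; omega
    | succ k =>
      rw [qq_add_two]
      have h2 := qq_mono_succ h0 hi k
      have h3 : aq ξ (k + 2) * qq ξ (k + 1) ≤ ⌊M⌋₊ * qq ξ (k + 1) := Nat.mul_le_mul_right _ (h1 k)
      calc aq ξ (k + 2) * qq ξ (k + 1) + qq ξ k ≤ ⌊M⌋₊ * qq ξ (k + 1) + 1 * qq ξ (k + 1) := by omega
        _ = (⌊M⌋₊ + 1) * qq ξ (k + 1) := by ring
        _ ≤ A * qq ξ (k + 1) := Nat.mul_le_mul_right _ (by omega)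
  · cases k with
    | zero => rw [zero_add]; omega
    | succ k => have : aq ξ (k + 1 + 1) ≤ ⌊M⌋₊ := h1 k; omega

end Pool.Agent.NH93.Rec
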