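import Mathlib
import Pool.Agent.NH93.Rec.Quad

/-!
# Ostrowski representations: existence and uniqueness (MP_425be5_nt)
-/

set_option autoImplicit false

open Set

namespace Pool.Agent.NH93.Rec

variable {e : ℤ} {ξ : ℝ}

/-- the digit `b_i` of the word `b_j ... b_0` (and `0` beyond its length) -/
def dig (w : List ℕ) (i : ℕ) : ℕ := w.reverse.getD i 0

/-- `w = b_j ... b_0` is the `ξ`-Ostrowski representation of `N` -/
def IsOstrowski (ξ : ℝ) (w : List ℕ) (N : ℕ) : Prop :=
  dig w 0 < aq ξ 1 ∧ (∀ i, 1 ≤ i → dig w i ≤ aq ξ (i + 1)) ∧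
  (∀ i, 1 ≤ i → dig w i = aq ξ (i + 1) → dig w (i - 1) = 0) ∧
  w.head? ≠ some 0 ∧ N = ∑ i ∈ Finset.range w.length, dig w i * qq ξ i

theorem VV_iff (h0 : 0 < ξ) (hi : Irrational ξ) (t : List ℕ) (k : ℕ) : VV ξ k t ↔
    (∀ i, t.getD i 0 ≤ aq ξ (k + i + 1)) ∧ (k = 0 → t.getD 0 0 < aq ξ 1) ∧
      (∀ i, t.getD (i + 1) 0 = aq ξ (k + i + 2) → t.getD i 0 = 0) := by
  induction t generalizing k with
  | nil =>
    simp only [VV, List.getD_nil, true_iff]
    refine ⟨fun i => Nat.zero_le _, fun _ => aq_pos h0 hi 0, fun _ _ => trivial⟩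
  | cons b t ih =>
    simp only [VV]
    rw [ih (k + 1)]
    have hhead : t.head? = some (aq ξ (k + 2)) ↔ t.getD 0 0 = aq ξ (k + 2) := by
      cases t with
      | nil =>
        have := aq_pos h0 hi (k + 1)
        simp only [List.head?_nil, List.getD_nil]
        constructor
        · intro h; simp at h
        · intro h
          rw [show k + 2 = k + 1 + 1 by ring] at h
          omega
      | cons c t => simp
    rw [hhead]
    constructor
    · rintro ⟨h1, h2, h3, h4, h5, h6⟩
      refine ⟨fun i => ?_, fun hk => ?_, fun i hh => ?_⟩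
      · cases i with
        | zero => simpa using h1
        | succ i =>
          have := h4 i
          rw [List.getD_cons_succ, show k + (i + 1) + 1 = k + 1 + i + 1 by ring]
          exact this
      · simpa using h2 hk
      · cases i with
        | zero =>
          rw [List.getD_cons_zero]
          exact h3 (by simpa using hh)
        | succ i =>
          rw [List.getD_cons_succ] at hh ⊢
          exact h6 i (by rw [hh]; congr 1; ring)
    · rintro ⟨h1, h2, h3⟩
      refine ⟨by simpa using h1 0, fun hk => by simpa using h2 hk, fun hh => ?_, fun i => ?_,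
        fun hk => absurd hk (by omega), fun i hh => ?_⟩
      · have := h3 0 (by rw [List.getD_cons_succ]; simpa using hh)
        simpa using this
      · have := h1 (i + 1)
        rw [List.getD_cons_succ] at this
        rw [show k + 1 + i + 1 = k + (i + 1) + 1 by ring]; exact this
      · have := h3 (i + 1) (by rw [List.getD_cons_succ, hh]; congr 1; ring)
        rw [List.getD_cons_succ] at this
        exact this

theorem NV_sum (t : List ℕ) (k : ℕ) :
    NV ξ k t = ∑ i ∈ Finset.range t.length, t.getD i 0 * qq ξ (k + i) := by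
  induction t generalizing k with
  | nil => simp [NV]
  | cons b t ih =>
    simp only [NV]
    rw [List.length_cons, Finset.sum_range_succ', ih (k + 1)]
    simp only [List.getD_cons_succ, List.getD_cons_zero, add_zero]
    rw [add_comm]
    congr 1
    refine Finset.sum_congr rfl fun i _ => ?_
    rw [show k + 1 + i = k + (i + 1) by ring]

theorem isOstrowski_iff (h0 : 0 < ξ) (hi : Irrational ξ) (w : List ℕ) (N : ℕ) :
    IsOstrowski ξ w N ↔ VV ξ 0 w.reverse ∧ w.head? ≠ some 0 ∧ N = NV ξ 0 w.reverse := by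
  unfold IsOstrowski dig
  rw [VV_iff h0 hi, NV_sum, List.length_reverse]
  simp only [zero_add]
  constructor
  · rintro ⟨h1, h2, h3, h4, h5⟩
    refine ⟨⟨fun i => ?_, fun _ => h1, fun i hh => h3 (i + 1) (by omega) hh⟩, h4, h5⟩
    rcases Nat.eq_zero_or_pos i with rfl | hi'
    · simpa using h1.le
    · exact h2 i hi'
  · rintro ⟨⟨h1, h2, h3⟩, h4, h5⟩
    refine ⟨h2 trivial, fun i _ => h1 i, fun i hi' hh => ?_, h4, h5⟩
    obtain ⟨i', rfl⟩ : ∃ i', i = i' + 1 := ⟨i - 1, by omega⟩
    exact h3 i' hh

theorem VV_append (s t : List ℕ) (k : ℕ) (hs : VV ξ k s) (ht : VV ξ (k + s.length) t)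
    (h0s : s = [] ∨ s.getLast? = some 0 ∨ t.head? ≠ some (aq ξ (k + s.length + 1)))
    (hk : s ≠ []) : VV ξ k (s ++ t) := by
  induction s generalizing k with
  | nil => exact absurd rfl hk
  | cons b s ih =>
    obtain ⟨h1, h2, h3, h4⟩ := hs
    rw [List.length_cons, show k + (s.length + 1) = k + 1 + s.length by ring] at ht h0s
    cases s with
    | nil =>
      simp only [List.length_nil, add_zero] at ht h0s
      refine ⟨h1, h2, fun hh => ?_, ht⟩
      rcases h0s with h | h | h
      · simp at h
      · simpa using h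
      · exact absurd hh h
    | cons c s =>
      refine ⟨h1, h2, fun hh => h3 (by simpa using hh), ih (k + 1) h4 ht ?_ (by simp)⟩
      rcases h0s with h | h | h
      · simp at h
      · exact Or.inr (Or.inl (by rwa [List.getLast?_cons_cons] at h))
      · exact Or.inr (Or.inr h)

theorem exists_rep (h0 : 0 < ξ) (hi : Irrational ξ) (n : ℕ) : ∀ N < qq ξ n,
    ∃ s : List ℕ, s.length = n ∧ VV ξ 0 s ∧ NV ξ 0 s = N := by
  induction n using Nat.strong_induction_on with
  | _ n ih =>
    intro N hN
    match n with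
    | 0 =>
      rw [qq_zero] at hN
      exact ⟨[], rfl, trivial, by simp only [NV]; omega⟩
    | 1 =>
      rw [qq_one] at hN
      refine ⟨[N], rfl, ⟨hN.le, fun _ => hN, fun h => ?_, trivial⟩, ?_⟩
      · simp at h
      · simp [NV, qq_zero]
    | n + 2 =>
      have hq := qq_pos h0 hi (n + 1)
      rw [qq_add_two] at hN
      have hm := qq_mono_succ h0 hi n
      set b := N / qq ξ (n + 1) with hb
      have hdiv : N % qq ξ (n + 1) + b * qq ξ (n + 1) = N := by
        rw [mul_comm]; exact Nat.mod_add_div _ _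
      have hr : N % qq ξ (n + 1) < qq ξ (n + 1) := Nat.mod_lt _ hq
      have hble : b ≤ aq ξ (n + 2) := by
        rw [hb, Nat.div_le_iff_le_mul_add_pred hq]
        rw [mul_comm]
        omega
      rcases hble.lt_or_eq with hlt | heq
      · obtain ⟨s, h1, h2, h3⟩ := ih (n + 1) (by omega) _ hr
        refine ⟨s ++ [b], by simp [h1], ?_, ?_⟩
        · refine VV_append s [b] 0 h2 ?_ (Or.inr (Or.inr ?_)) ?_
          · rw [h1, zero_add]
            exact ⟨hble, fun h => absurd h (by omega), fun h => by simp at h, trivial⟩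
          · rw [h1, zero_add, List.head?_cons, ne_eq, Option.some.injEq]
            exact hlt.ne
          · intro h; rw [h] at h1; simp at h1
        · rw [NV_append, h1, h3, zero_add]
          simp only [NV, add_zero]
          exact hdiv
      · have hr2 : N % qq ξ (n + 1) < qq ξ n := by
          rw [heq] at hdiv; omega
        obtain ⟨s, h1, h2, h3⟩ := ih n (by omega) _ hr2
        have hv2 : VV ξ n [0, b] := by
          refine ⟨Nat.zero_le _, fun _ => aq_pos h0 hi 0, fun _ => rfl, hble,
            fun h => absurd h (by omega), fun h => by simp at h, trivial⟩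
        refine ⟨s ++ [0, b], by simp [h1], ?_, ?_⟩
        · by_cases hs : s = []
          · subst hs
            have hn0 : n = 0 := by simpa using h1.symm
            subst hn0
            exact hv2
          · refine VV_append s [0, b] 0 h2 (by rw [h1, zero_add]; exact hv2) (Or.inr (Or.inr ?_)) hs
            rw [h1, zero_add, List.head?_cons, ne_eq, Option.some.injEq]
            have := aq_pos h0 hi n
            omega
        · rw [NV_append, h1, h3, zero_add]
          simp only [NV, zero_mul, add_zero, zero_add]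
          exact hdiv

theorem strip (s : List ℕ) (hv : VV ξ 0 s) : ∃ t : List ℕ, VV ξ 0 t ∧ NV ξ 0 t = NV ξ 0 s ∧
    t.getLast? ≠ some 0 := by
  induction s using List.reverseRecOn with
  | nil => exact ⟨[], hv, rfl, by simp⟩
  | append_singleton s b ih =>
    by_cases hb : b = 0
    · subst hb
      obtain ⟨t, h1, h2, h3⟩ := ih (VV_append_left _ _ _ hv)
      refine ⟨t, h1, ?_, h3⟩
      rw [h2, NV_append]
      simp [NV]
    · exact ⟨s ++ [b], hv, rfl, by simpa using hb⟩

theorem NV_inj_len (h0 : 0 < ξ) (hi : Irrational ξ) (n : ℕ) : ∀ s t : List ℕ, s.length = n →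
    t.length = n → VV ξ 0 s → VV ξ 0 t → NV ξ 0 s = NV ξ 0 t → s = t := by
  induction n with
  | zero =>
    intro s t hs ht _ _ _
    rw [List.eq_nil_of_length_eq_zero hs, List.eq_nil_of_length_eq_zero ht]
  | succ n ih =>
    intro s t hs ht hvs hvt h
    rcases List.eq_nil_or_concat s with rfl | ⟨s', b, rfl⟩
    · simp at hs
    rcases List.eq_nil_or_concat t with rfl | ⟨t', c, rfl⟩
    · simp at ht
    simp only [List.concat_eq_append] at hs ht hvs hvt h ⊢
    rw [List.length_append, List.length_singleton] at hs ht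
    have hs' : s'.length = n := by omega
    have ht' : t'.length = n := by omega
    rw [NV_append, NV_append, hs', ht', zero_add] at h
    simp only [NV, add_zero] at h
    have h1 := NV_lt h0 hi n s' hs' (VV_append_left _ _ _ hvs)
    have h2 := NV_lt h0 hi n t' ht' (VV_append_left _ _ _ hvt)
    have hq := qq_pos h0 hi n
    have hbc : b = c := by
      have e1 : (NV ξ 0 s' + b * qq ξ n) / qq ξ n = b := by
        rw [Nat.add_mul_div_right _ _ hq, Nat.div_eq_of_lt h1, zero_add]
      have e2 : (NV ξ 0 t' + c * qq ξ n) / qq ξ n = c := by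
        rw [Nat.add_mul_div_right _ _ hq, Nat.div_eq_of_lt h2, zero_add]
      rw [← e1, ← e2, h]
    subst hbc
    rw [ih s' t' hs' ht' (VV_append_left _ _ _ hvs) (VV_append_left _ _ _ hvt) (by omega)]

theorem qq_mono (h0 : 0 < ξ) (hi : Irrational ξ) : Monotone (qq ξ) :=
  monotone_nat_of_le_succ (qq_mono_succ h0 hi)

theorem NV_ge_top (t : List ℕ) (n : ℕ) (hn : t.length = n + 1)
    (hlast : t.getLast? ≠ some 0) : qq ξ n ≤ NV ξ 0 t := by
  rcases List.eq_nil_or_concat t with rfl | ⟨t', c, rfl⟩
  · simp at hn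
  rw [List.concat_eq_append] at *
  rw [List.length_append, List.length_singleton] at hn
  have ht' : t'.length = n := by omega
  rw [NV_append, ht', zero_add]
  simp only [NV, add_zero]
  have hc : c ≠ 0 := by simpa using hlast
  have : 1 * qq ξ n ≤ c * qq ξ n := Nat.mul_le_mul_right _ (by omega)
  omega

theorem NV_inj (h0 : 0 < ξ) (hi : Irrational ξ) (s t : List ℕ) (hvs : VV ξ 0 s) (hvt : VV ξ 0 t)
    (hs : s.getLast? ≠ some 0) (ht : t.getLast? ≠ some 0) (h : NV ξ 0 s = NV ξ 0 t) : s = t := by
  have key : ∀ s t : List ℕ, VV ξ 0 s → VV ξ 0 t → t.getLast? ≠ some 0 →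
      NV ξ 0 s = NV ξ 0 t → t.length ≤ s.length := by
    intro s t hvs hvt ht h
    by_contra hc
    rw [not_le] at hc
    obtain ⟨n, hn⟩ : ∃ n, t.length = n + 1 := ⟨t.length - 1, by omega⟩
    have h1 := NV_ge_top (ξ := ξ) t n hn ht
    have h2 := NV_lt h0 hi _ s rfl hvs
    have h3 : qq ξ s.length ≤ qq ξ n := qq_mono h0 hi (by omega)
    omega
  exact NV_inj_len h0 hi t.length s t (le_antisymm (key t s hvt hvs hs h.symm)
    (key s t hvs hvt ht h)) rfl hvs hvt h

theorem le_qq (h0 : 0 < ξ) (hi : Irrational ξ) (n : ℕ) : n ≤ qq ξ (2 * n) := by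
  induction n with
  | zero => omega
  | succ n ih =>
    rw [show 2 * (n + 1) = 2 * n + 2 by ring, qq_add_two]
    have h1 := aq_pos h0 hi (2 * n + 1)
    have h2 := qq_pos h0 hi (2 * n + 1)
    have h3 : 1 * 1 ≤ aq ξ (2 * n + 2) * qq ξ (2 * n + 1) := Nat.mul_le_mul h1 h2
    omega

/-- every natural number has exactly one Ostrowski representation -/
theorem existsUnique_rep (h0 : 0 < ξ) (hi : Irrational ξ) (N : ℕ) :
    ∃! w : List ℕ, IsOstrowski ξ w N := by
  obtain ⟨s, h1, h2, h3⟩ := exists_rep h0 hi (2 * (N + 1)) N (by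
    have := le_qq h0 hi (N + 1); omega)
  obtain ⟨t, h4, h5, h6⟩ := strip s h2
  refine ⟨t.reverse, ?_, ?_⟩
  · simp only
    rw [isOstrowski_iff h0 hi, List.reverse_reverse, List.head?_reverse]
    exact ⟨h4, h6, by rw [h5, h3]⟩
  · intro w hw
    rw [isOstrowski_iff h0 hi] at hw
    obtain ⟨g1, g2, g3⟩ := hw
    have := NV_inj h0 hi w.reverse t g1 h4 (by rw [List.getLast?_reverse]; exact g2) h6
      (by rw [← g3, h5, h3])
    rw [← this, List.reverse_reverse]

end Pool.Agent.NH93.Rec
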